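import Pool.Agent.H79.BN.ChkI

/-! # The integral checker agrees with the general one -/

namespace Pool.Agent.H79.BN

open Set Pool.Agent.H93.BL

/-- embedding of the integers -/
def em (x : ℤ) : Z5 := ⟨x, 0⟩

lemma em_add (x y : ℤ) : (em x).add (em y) = em (Int.add x y) := by
  simp only [em, Z5.add]; rfl
lemma em_sub (x y : ℤ) : (em x).sub (em y) = em (Int.sub x y) := by
  simp only [em, Z5.sub]; rfl
lemma em_neg (x : ℤ) : (em x).neg = em (Int.neg x) := by
  simp only [em, Z5.neg]; rfl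
lemma em_mul (x y : ℤ) : (em x).mul (em y) = em (Int.mul x y) := by
  have h : Int.mul x y = x * y := rfl
  rw [h]
  simp only [em, Z5.mul]
  congr 1 <;> ring
lemma ipos_iff (x : ℤ) : ipos x = true ↔ 0 < x := by
  rcases x with (_ | k) | k
  · simp [ipos]
  · have : (0 : ℤ) < Int.ofNat (k + 1) := Int.natCast_pos.2 (Nat.succ_pos k)
    simp [ipos, this]
  · simp [ipos, Int.negSucc_lt_zero, (Int.negSucc_lt_zero k).le.not_gt]
lemma ineg_iff (x : ℤ) : ineg x = true ↔ x < 0 := by
  rcases x with k | k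
  · simp [ineg]
  · simp [ineg, Int.negSucc_lt_zero]
lemma iz_iff (x : ℤ) : iz x = true ↔ x = 0 := by
  rcases x with (_ | k) | k
  · simp [iz]
  · simp [iz]
    omega
  · simp [iz]
lemma em_pos (x : ℤ) : (em x).pos = ipos x := by
  rw [Bool.eq_iff_iff, ipos_iff]
  unfold em Z5.pos
  by_cases h : 0 ≤ x
  · simp [h]
  · simp [h]; omega
lemma em_isz (x : ℤ) : (em x).isz = iz x := by
  rw [Bool.eq_iff_iff, iz_iff]
  simp [em, Z5.isz]
lemma em_isneg (x : ℤ) : (em x).isneg = ineg x := by
  rw [Bool.eq_iff_iff, ineg_iff]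
  unfold Z5.isneg
  rw [em_neg, em_pos, ipos_iff]
  have : Int.neg x = -x := rfl
  rw [this]
  omega
lemma em_nonneg (x : ℤ) : (em x).nonneg = !(ineg x) := by
  rw [Bool.eq_iff_iff]
  unfold Z5.nonneg
  rw [em_isz, em_pos, Bool.or_eq_true, iz_iff, ipos_iff, Bool.not_eq_true', ← Bool.not_eq_true,
    ineg_iff]
  omega
lemma em_nonpos (x : ℤ) : (em x).nonpos = !(ipos x) := by
  rw [Bool.eq_iff_iff]
  unfold Z5.nonpos
  rw [em_isz, em_isneg, Bool.or_eq_true, iz_iff, ineg_iff, Bool.not_eq_true', ← Bool.not_eq_true,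
    ipos_iff]
  omega
lemma em_pos2 (x y : ℤ) : pos2 (em x) (em y) = ipos2 x y := by
  unfold pos2 ipos2
  rw [em_nonneg, em_nonneg, em_pos, em_pos, Bool.and_assoc]
lemma em_neg2 (x y : ℤ) : neg2 (em x) (em y) = ineg2 x y := by
  unfold neg2 ineg2
  rw [em_nonpos, em_nonpos, em_isneg, em_isneg, Bool.and_assoc]

lemma em_inj (x y : ℤ) : em x = em y ↔ x = y := by
  unfold em
  constructor
  · intro h; exact (Z5.mk.inj h).1
  · rintro rfl; rfl

/-- embedding of pairs -/
def ep (x y : ℤ) : Pt := ⟨em x, em y⟩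

lemma ep_sub (a b c d : ℤ) : (ep a b).sub (ep c d) = ep (Int.sub a c) (Int.sub b d) := by
  unfold ep Pt.sub; rw [em_sub, em_sub]
lemma ep_add (a b c d : ℤ) : (ep a b).add (ep c d) = ep (Int.add a c) (Int.add b d) := by
  unfold ep Pt.add; rw [em_add, em_add]
lemma ep_neg (a b : ℤ) : (ep a b).neg = ep (Int.neg a) (Int.neg b) := by
  unfold ep Pt.neg; rw [em_neg, em_neg]
lemma ep_smul (l a b : ℤ) : Pt.smul (em l) (ep a b) = ep (Int.mul l a) (Int.mul l b) := by
  unfold ep Pt.smul; rw [em_mul, em_mul]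
lemma ep_cr (a b c d : ℤ) : Pt.crz (ep a b) (ep c d) = em (icr a b c d) := by
  unfold ep Pt.crz icr; simp only [em_mul, em_sub]
lemma em_one_mul (x : ℤ) : (em 1).mul (em x) = em x := by
  rw [em_mul]
  have : Int.mul 1 x = 1 * x := rfl
  rw [this, one_mul]
lemma ep_ip (a b c d : ℤ) : Pt.ipz (em 1) (ep a b) (ep c d) = em (iip a b c d) := by
  unfold ep Pt.ipz iip; simp only [em_mul, em_add, em_one_mul]
  congr 2
  change 1 * Int.mul b d = _
  rw [one_mul]
lemma ep_rf (a b c d : ℤ) : Pt.rfz (em 1) (ep a b) (ep c d) =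
    ep (Int.add (Int.mul (Int.sub (Int.mul a a) (Int.mul b b)) c)
        (Int.mul (Int.mul 2 (Int.mul a b)) d))
      (Int.sub (Int.mul (Int.mul 2 (Int.mul a b)) c)
        (Int.mul (Int.sub (Int.mul a a) (Int.mul b b)) d)) := by
  have h2 : Int.mul 2 (Int.mul a b) = Int.add (Int.mul a b) (Int.mul a b) := by
    change 2 * (a * b) = a * b + a * b
    ring
  have h1 : ∀ x : ℤ, Int.mul 1 x = x := fun x => by
    change 1 * x = x
    rw [one_mul]
  unfold ep Pt.rfz
  simp only [em_mul, em_add, em_sub, h1, h2]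
lemma toPt_eq (p : PI) : p.toPt = ep p.x p.y := rfl

lemma decide_ep (a b c d : ℤ) :
    decide (ep a b = ep c d) = (iz (Int.sub c a) && iz (Int.sub d b)) := by
  rw [Bool.eq_iff_iff, decide_eq_true_eq, Bool.and_eq_true, iz_iff, iz_iff]
  have h1 : Int.sub c a = c - a := rfl
  have h2 : Int.sub d b = d - b := rfl
  rw [h1, h2]
  unfold ep
  constructor
  · intro h
    have := Pt.mk.inj h
    rw [em_inj, em_inj] at this
    omega
  · rintro ⟨h3, h4⟩
    have h5 : a = c := by omega
    have h6 : b = d := by omega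
    rw [h5, h6]

section

variable {n : ℕ} [NeZero n] (w : Fin n → PI) (E : Fin n → Bool)

variable (W : Fin n → Pt) (hW : ∀ i, W i = ep (w i).x (w i).y)

include hW

lemma edz_eq (s : Fin n) : edz W s =
    ep (Int.sub (w (s + 1)).x (w s).x) (Int.sub (w (s + 1)).y (w s).y) := by
  unfold edz
  rw [hW, hW, ep_sub]

theorem chkI_eq (t : Tr n) : ∀ X Y l a b c d : ℤ, chkI w E t X Y l a b c d =
    chk W (em 1) E t (ep X Y) (em l) (ep a b) (ep c d) := by
  have h10 : (⟨1, 0⟩ : Z5) = em 1 := rfl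
  induction t with
  | nil => intros; rfl
  | crs s t ih =>
    intro X Y l a b c d
    simp only [chkI, chk, hW, ep_smul, ep_sub, ep_cr, em_pos2, em_neg2, edz_eq w W hW, ep_ip,
      ep_rf, ep_add, em_mul, ih, Bool.and_assoc]
    have hadd : ∀ a b : ℤ, Int.add a b = a + b := fun _ _ => rfl
    have hsub : ∀ a b : ℤ, Int.sub a b = a - b := fun _ _ => rfl
    have hmul : ∀ a b : ℤ, Int.mul a b = a * b := fun _ _ => rfl
    congr 5
    · simp only [iip, hadd, hsub, hmul]
      ring
    · simp only [iip, hadd, hsub, hmul]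
      ring
  | vtx s t1 t2 ih1 ih2 =>
    intro X Y l a b c d
    have hs : s - 1 + 1 = s := by simp
    simp only [chkI, chk, hW, ep_smul, ep_sub, ep_cr, em_pos2, em_neg2, edz_eq w W hW, ep_ip,
      ep_rf, ep_add, em_mul, ih1, ih2, Bool.and_assoc, hs, em_isz, aftI, h10]
  | cor s t ih =>
    intro X Y l a b c d
    have hs : s - 1 + 1 = s := by simp
    simp only [chkI, chk, hW, ep_smul, ep_sub, ep_cr, em_pos2, em_neg2, edz_eq w W hW, ep_ip,
      ep_rf, ep_add, em_mul, ih, Bool.and_assoc, hs, em_isz, aftI, h10, decide_ep]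
  | cor' s t ih =>
    intro X Y l a b c d
    have hs : s - 1 + 1 = s := by simp
    simp only [chkI, chk, hW, ep_smul, ep_sub, ep_cr, em_pos2, em_neg2, edz_eq w W hW, ep_ip,
      ep_rf, ep_add, em_mul, ih, Bool.and_assoc, hs, em_isz, aftI, h10, decide_ep]
  | par s t ih =>
    intro X Y l a b c d
    simp only [chkI, chk, hW, ep_smul, ep_sub, ep_cr, em_pos2, em_neg2, edz_eq w W hW, ep_ip,
      ep_rf, ep_add, em_mul, ih, Bool.and_assoc, em_isz, aftI, h10, decide_ep, em_pos]
  | par' s t ih =>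
    intro X Y l a b c d
    have hs : s - 1 + 1 = s := by simp
    simp only [chkI, chk, hW, ep_smul, ep_sub, ep_cr, em_pos2, em_neg2, edz_eq w W hW, ep_ip,
      ep_rf, ep_add, em_mul, ih, Bool.and_assoc, hs, em_isz, aftI, h10, decide_ep, em_isneg]

theorem chkOptI_eq (i : Fin n) (o : ℕ) (t : Tr n) (a b c d : ℤ) :
    chkOptI w E i o t a b c d = chkOpt W (em 1) E i o t (ep a b) (ep c d) := by
  have h10 : (⟨1, 0⟩ : Z5) = em 1 := rfl
  rcases o with _ | _ | o
  · simp only [chkOptI, chkOpt, hW, ep_neg, h10, chkI_eq w E W hW]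
  · simp only [chkOptI, chkOpt, hW, h10, chkI_eq w E W hW, edz_eq w W hW, ep_cr, em_neg2, ep_rf,
      aftI]
  · simp only [chkOptI, chkOpt, hW, h10, chkI_eq w E W hW, edz_eq w W hW, ep_cr, em_neg2, ep_rf,
      aftI]

theorem chkCovI_eq (i : Fin n) (gx gy : ℤ) (L : List (ItemI n)) :
    chkCovI w E i gx gy L = true →
      chkCov W (em 1) E i (ep gx gy) (L.map ItemI.toItem) = true := by
  induction L with
  | nil => intro h; exact absurd h (by simp [chkCovI])
  | cons a L ih =>
    intro h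
    rcases L with _ | ⟨b, L⟩
    · simp only [chkCovI, Bool.and_eq_true] at h
      obtain ⟨h1, h2, h3⟩ := h
      simp only [List.map, chkCov, Bool.and_eq_true, decide_eq_true_eq]
      refine ⟨?_, ?_⟩
      · rw [iz_iff] at h2 h3
        change a.x - gx = 0 at h2
        change a.y - gy = 0 at h3
        change ep a.x a.y = ep gx gy
        rw [sub_eq_zero.1 h2, sub_eq_zero.1 h3]
      · rw [chkOptI_eq w E W hW] at h1
        exact h1
    · rw [chkCovI, Bool.and_eq_true, Bool.and_eq_true, Bool.and_eq_true, Bool.and_eq_true] at h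
      obtain ⟨h1, ⟨⟨h2, h3⟩, h4⟩, h5⟩ := h
      have h6 := ih h5
      rw [List.map_cons, List.map_cons, chkCov, Bool.and_eq_true, Bool.and_eq_true,
        Bool.and_eq_true, Bool.and_eq_true]
      refine ⟨⟨⟨⟨?_, ?_⟩, ?_⟩, ?_⟩, ?_⟩
      · change (Pt.crz (ep a.x a.y) (ep b.x b.y)).isneg = true
        rw [ep_cr, em_isneg]; exact h2
      · change (Pt.crz (ep a.x a.y) (ep gx gy)).isneg = true
        rw [ep_cr, em_isneg]; exact h3
      · rw [chkOptI_eq w E W hW] at h1
        exact h1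
      · rw [chkOptI_eq w E W hW] at h4
        exact h4
      · exact h6

theorem chkVI_eq (i : Fin n) (L : List (ItemI n)) (h : chkVI w E i L = true) :
    chkV W (em 1) E i (L.map ItemI.toItem) = true := by
  rcases L with _ | ⟨a, L⟩
  · exact absurd h (by simp [chkVI])
  · rw [chkVI, Bool.and_eq_true, Bool.and_eq_true] at h
    obtain ⟨⟨h1, h2⟩, h3⟩ := h
    rw [iz_iff] at h1 h2
    unfold chkV
    rw [Bool.and_eq_true]
    refine ⟨?_, ?_⟩
    · change decide (ep a.x a.y = edz W i) = true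
      rw [decide_eq_true_eq, edz_eq w W hW]
      rw [sub_eq_zero.1 h1, sub_eq_zero.1 h2]
    · have h4 : (edz W (i + 1)).neg = ep (Int.sub (w (i + 1)).x (w (i + 1 + 1)).x)
          (Int.sub (w (i + 1)).y (w (i + 1 + 1)).y) := by
        rw [edz_eq w W hW, ep_neg]
        congr 1
        · exact neg_sub _ _
        · exact neg_sub _ _
      rw [h4]
      exact chkCovI_eq w E W hW i _ _ _ h3

end

/-- vertices as complex numbers -/
def PI.val (p : PI) : ℂ := ⟨p.x, p.y⟩

lemma val_ep (x y : ℤ) : (ep x y).val (em 1) = (PI.mk x y).val := by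
  unfold ep Pt.val PI.val Z5.val em
  simp

theorem chkConvI_sound {n : ℕ} [NeZero n] (w : Fin n → PI) (h : chkConvI w = true) :
    ConvPos (fun i => (w i).val) := by
  intro i j hj hj'
  unfold chkConvI at h
  rw [List.all_eq_true] at h
  have h1 := h i (List.mem_finRange i)
  rw [List.all_eq_true] at h1
  have h2 := h1 j (List.mem_finRange j)
  rw [Bool.or_eq_true, Bool.or_eq_true, decide_eq_true_eq, decide_eq_true_eq, ipos_iff] at h2
  rcases h2 with (h2 | h2) | h2
  · exact absurd h2 hj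
  · exact absurd h2 hj'
  · have h3 : (0 : ℤ) < ((w (i + 1)).x - (w i).x) * ((w j).y - (w i).y) -
        ((w (i + 1)).y - (w i).y) * ((w j).x - (w i).x) := h2
    have h4 : (0 : ℝ) < (((w (i + 1)).x - (w i).x) * ((w j).y - (w i).y) -
        ((w (i + 1)).y - (w i).y) * ((w j).x - (w i).x) : ℤ) := by exact_mod_cast h3
    unfold cr ed PI.val
    push_cast at h4
    simpa using h4

/-- soundness of the integral certificates -/
theorem certI (h5 : T_C5) {n : ℕ} [NeZero n] (hn : 3 ≤ n) (w : Fin n → PI)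
    (hc : chkConvI w = true) (e i : Fin n) (L : List (ItemI n))
    (h : chkVI w (fun j => decide (j = e)) i L = true) :
    FreeV (fun i => (w i).val) {e} i := by
  have hv : (fun i => (ep (w i).x (w i).y).val (em 1)) = fun i => (w i).val := by
    funext i; exact val_ep _ _
  have h1 := chkVI_eq w (fun j => decide (j = e)) (fun i => ep (w i).x (w i).y) (fun _ => rfl) i L h
  have h0 : 0 < (em 1).val := by
    unfold em Z5.val; simp
  have h2 := h5 n (fun i => ep (w i).x (w i).y) (em 1) (fun j => decide (j = e)) hn h0 (by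
    rw [hv]; exact chkConvI_sound w hc) i _ h1
  rw [hv] at h2
  have h3 : {j : Fin n | decide (j = e) = true} = {e} := by
    ext j; simp
  rwa [h3] at h2

end Pool.Agent.H79.BN
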