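import Pool.Agent.H79.BN.Targets

/-!
# Non-separation: targets of part F (the angle criterion)
-/

namespace Pool.Agent.H79.BN

open MeasureTheory Set Filter Topology Pool.Agent.H93.BL

section cyclic

variable {n : ℕ} [NeZero n]

/-- unit direction of the side `i + 1`, which starts at the vertex `w (i + 1)` -/
noncomputable def dr (w : Fin n → ℂ) (i : Fin n) : ℂ := ed w (i + 1) / (‖ed w (i + 1)‖ : ℂ)

/-- the direction at the angle `x` from the side `i + 1` (counterclockwise) -/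
noncomputable def dx (w : Fin n → ℂ) (i : Fin n) (x : ℝ) : ℂ :=
  dr w i * Complex.exp ((x : ℂ) * Complex.I)

/-- the angle at the vertex `w (i + 1)` from the side `i + 1` to the vertex `w k` -/
noncomputable def angR (w : Fin n → ℂ) (i k : Fin n) : ℝ :=
  EuclideanGeometry.angle (w (i + 2)) (w (i + 1)) (w k)

/-- the angle at the vertex `w (i + 1)` from the side `i` to the vertex `w k` -/
noncomputable def angL (w : Fin n → ℂ) (i k : Fin n) : ℝ :=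
  EuclideanGeometry.angle (w i) (w (i + 1)) (w k)

end cyclic

/-- `Ab` depends only on the ray of the direction -/
def T_F0 : Prop := ∀ (n : ℕ) [NeZero n] (w : Fin n → ℂ) (E : Set (Fin n)) (y d : ℂ) (c : ℝ),
  0 < c → Ab w E y ((c : ℂ) * d) → Ab w E y d

/-- angles and directions at a vertex -/
def T_F1 : Prop := ∀ (n : ℕ) [NeZero n] (w : Fin n → ℂ), 3 ≤ n → ConvPos w → ∀ i : Fin n,
  0 < ang w i ∧ ang w i < Real.pi ∧ ‖dr w i‖ = 1 ∧
  ed w (i + 1) = (‖ed w (i + 1)‖ : ℂ) * dx w i 0 ∧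
  ed w i = -((‖ed w i‖ : ℂ) * dx w i (ang w i)) ∧
  ∀ k, k ≠ i + 1 → 0 ≤ angR w i k ∧ angR w i k + angL w i k = ang w i ∧ 0 ≤ angL w i k ∧
    w k - w (i + 1) = (‖w k - w (i + 1)‖ : ℂ) * dx w i (angR w i k)

/-- products of directions -/
def T_F2 : Prop := ∀ (n : ℕ) [NeZero n] (w : Fin n → ℂ), 3 ≤ n → ConvPos w → ∀ (i : Fin n) (x y : ℝ),
  cr (dx w i x) (dx w i y) = Real.sin (y - x) ∧
  cr (ed w (i + 1)) (dx w i x) = ‖ed w (i + 1)‖ * Real.sin x ∧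
  cr (ed w i) (dx w i x) = ‖ed w i‖ * Real.sin (ang w i - x) ∧
  rf (ed w (i + 1)) (dx w i x) = ((‖ed w (i + 1)‖ ^ 2 : ℝ) : ℂ) * dx w i (-x) ∧
  rf (ed w i) (dx w i x) = ((‖ed w i‖ ^ 2 : ℝ) : ℂ) * dx w i (2 * ang w i - x) ∧
  dx w i (x + 2 * Real.pi) = dx w i x ∧ dx w i (x + Real.pi) = -dx w i x ∧
  (∀ d : ℂ, d ≠ 0 → cr (ed w i) d ≤ 0 → cr (ed w (i + 1)) d ≤ 0 →
    ∃ ρ x : ℝ, 0 < ρ ∧ 0 ≤ x ∧ x ≤ ang w i ∧ d = -((ρ : ℂ) * dx w i x))

/-- the absorbed sector -/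
def T_F3 : Prop := ∀ (n : ℕ) [NeZero n] (w : Fin n → ℂ) (E : Set (Fin n)), 3 ≤ n → ConvPos w →
  ∀ (i : Fin n) (c x : ℝ), 0 ≤ c → c < ang w i →
  ((∀ k, k ∉ E → k ≠ i → k ≠ i + 1 → angR w i k ≤ c ∧ angR w i (k + 1) ≤ c) → c < x →
    x ≤ ang w i → AbL w E (w (i + 1)) (dx w i x)) ∧
  ((∀ k, k ∉ E → k ≠ i → k ≠ i + 1 → angL w i k ≤ c ∧ angL w i (k + 1) ≤ c) → 0 ≤ x →
    x < ang w i - c → AbL w E (w (i + 1)) (dx w i x))

/-- bounces in a corner -/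
def T_F4 : Prop := ∀ (n : ℕ) [NeZero n] (w : Fin n → ℂ) (E : Set (Fin n)), 3 ≤ n → ConvPos w →
  ∀ (i : Fin n) (S : Set ℝ),
  (∀ x ∈ S, 0 ≤ x → x ≤ ang w i → AbL w E (w (i + 1)) (dx w i x)) →
  ∀ (y t : ℝ) (m : ℤ), ang w i - Real.pi < y → y < Real.pi → t ∈ S → 0 ≤ t → t ≤ ang w i →
    (t = y + 2 * m * ang w i ∨ t = -y + 2 * m * ang w i) → AbL w E (w (i + 1)) (dx w i y)

/-- the angle criterion implies the vertex criterion -/
def T_F5 : Prop := ∀ (n : ℕ) [NeZero n] (w : Fin n → ℂ) (E : Set (Fin n)), 3 ≤ n → ConvPos w →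
  ∀ i : Fin n, FanGood w E i → FreeV w E i

/-- quadrilaterals: the diagonal divides the angle `φ` at the vertex `w (i + 1)` into two angles
`c` with `c < |π - 2 m φ| < 2 (φ - c)` for a natural number `m` -/
def QuadGood (w : Fin 4 → ℂ) (i : Fin 4) : Prop :=
  ∀ c, (c = EuclideanGeometry.angle (w i) (w (i + 1)) (w (i + 3)) ∨
      c = EuclideanGeometry.angle (w (i + 2)) (w (i + 1)) (w (i + 3))) →
    ∃ m : ℕ, c < |Real.pi - 2 * m * ang w i| ∧ |Real.pi - 2 * m * ang w i| < 2 * (ang w i - c)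

def T_F6 : Prop := ∀ (w : Fin 4 → ℂ), ConvPos w → (∀ i, QuadGood w i) →
  ∀ e i : Fin 4, i ∉ ({e} : Set (Fin 4)) → i + 1 ∉ ({e} : Set (Fin 4)) → FanGood w {e} i

/-- the rhombus with side length 1 and the angle `α` at the vertices 0 and 2 -/
noncomputable def rhomb (α : ℝ) : Fin 4 → ℂ :=
  ![-((Real.cos (α / 2) : ℝ) : ℂ), -((Real.sin (α / 2) : ℝ) : ℂ) * Complex.I,
    ((Real.cos (α / 2) : ℝ) : ℂ), ((Real.sin (α / 2) : ℝ) : ℂ) * Complex.I]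

def T_F7 : Prop := ∀ α : ℝ, 2 * Real.pi / 7 < α → α < Real.pi / 3 →
  ConvPos (rhomb α) ∧ ∀ i, QuadGood (rhomb α) i

/-- vertex covers -/
def T_F8 : Prop := ∀ (n : ℕ) [NeZero n] (P : Polygon (Fin n)) (E : Set (Fin n)), 3 ≤ n → Cyc P →
  ConvPos P.p → (∀ i, i ∉ E → i + 1 ∉ E → FanGood P.p E i) → P.Determines E

end Pool.Agent.H79.BN
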