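import Pool.Agent.H79.BN.Targets2

/-! # Non-separation: short modules -/

namespace Pool.Agent.H79.BN

open MeasureTheory Set Filter Topology Pool.Agent.H93.BL

theorem v0 : T_V0 := by
  intro n _ hn i
  obtain ⟨k, rfl⟩ : ∃ k, n = k + 3 := ⟨n - 3, by omega⟩
  have h1 : (1 : Fin (k + 3)) ≠ 0 := by
    intro h
    have := congrArg Fin.val h
    simp at this
  have h2 : (2 : Fin (k + 3)) ≠ 0 := by
    intro h
    have := congrArg Fin.val h
    have h3 : ((2 : Fin (k + 3)) : ℕ) = 2 := by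
      change 2 % (k + 3) = 2
      exact Nat.mod_eq_of_lt (by omega)
    rw [h3] at this
    simp at this
  have e2 : (1 : Fin (k + 3)) + 1 = 2 := by
    apply Fin.ext
    rw [Fin.val_add]
    have h3 : ((2 : Fin (k + 3)) : ℕ) = 2 := by
      change 2 % (k + 3) = 2
      exact Nat.mod_eq_of_lt (by omega)
    have h4 : ((1 : Fin (k + 3)) : ℕ) = 1 := by
      change 1 % (k + 3) = 1
      exact Nat.mod_eq_of_lt (by omega)
    rw [h3, h4]
    exact Nat.mod_eq_of_lt (by omega)
  refine ⟨?_, ?_, ?_, ?_, ?_, ?_, ?_, ?_, ?_, ?_⟩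
  · intro h
    exact h1 (by simpa using h)
  · intro h
    exact h2 (by simpa using h)
  · intro h
    apply h1
    have : i + (1 + 1) = i + 1 := by rw [e2]; exact h
    simpa using this
  · rw [add_assoc, e2]
  · intro h
    apply h1
    have : i - 1 + 1 = i + 1 := by rw [h]
    simpa using this
  · simp
  · simp
  · intro h
    apply h2
    have : i - 1 + 1 = i + 1 + 1 := by rw [h]
    rw [sub_add_cancel, add_assoc, e2] at this
    simpa using this
  · rw [sub_sub, e2]
  · rw [← e2, ← sub_sub, add_sub_cancel_right]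

theorem f0 : T_F0 := by
  intro n _ w E y d c hc h
  have : (((c : ℂ) * d) / (‖(c : ℂ) * d‖ : ℂ)) = d / (‖d‖ : ℂ) := by
    rw [norm_mul, Complex.norm_real, Real.norm_eq_abs, abs_of_pos hc]
    push_cast
    rw [mul_div_mul_left]
    exact_mod_cast hc.ne'
  unfold Ab at h ⊢
  rwa [this] at h

theorem y2 (hA : T_Y2A) (hC : T_Y2C) : T_Y2 := by
  intro n _ w E hn hw hF
  by_contra h
  obtain ⟨S⟩ := hA n w E hn hw h
  exact hC n w E S hn hw hF

theorem y3 (h12 : T_W12) (h2 : T_Y2) : T_Y3 := by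
  intro n _ w E hn hw hF
  obtain ⟨δ, hδ, h⟩ := h2 n w E hn hw hF
  exact ⟨δ, hδ, fun P hP => h12 (Fin n) P E δ hδ (h P hP)⟩

theorem f8 (h3 : T_Y3) (hf5 : T_F5) : T_F8 := by
  intro n _ P E hn hc hw hF
  obtain ⟨δ, hδ, h⟩ := h3 n P.p E hn hw fun i hi hi1 => hf5 n P.p E hn hw i (hF i hi hi1)
  refine h P ⟨hc, fun i => ?_⟩
  rw [sub_self, norm_zero]
  exact hδ

end Pool.Agent.H79.BN
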