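import Pool.Agent.H93.BL.Stmt

/-!
# Polygonal billiards: the non-separation criterion

The statement layer (definitions only) for the hand-in `NonSeparation` of `MP_009700_an`.
The tables, the billiard map and `Polygon.Determines` are defined in `Pool/Agent/H93/BL/Stmt.lean`.
-/

namespace Pool.Agent.H79.BN

open MeasureTheory Set Pool.Agent.H93.BL

/-- The phase point `z` has a two sided orbit which never meets a side in `E`. -/
def Trapped {ι : Type} (P : Polygon ι) (E : Set ι) (z : ι × ℝ × ℝ) : Prop :=
  ∃ f : ℤ → ι × ℝ × ℝ, f 0 = z ∧ ∀ n, P.Step (f n) (f (n + 1)) ∧ (f n).1 ∉ E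

/-- Two parallel rays at distance less than `c` which start on the same side and belong to orbits
avoiding `E` are not separated by a vertex: they and all rays between them hit the same side. -/
def NonSep {ι : Type} (P : Polygon ι) (E : Set ι) (c : ℝ) : Prop :=
  ∀ (i : ι) (s s' φ : ℝ), s < s' → (s' - s) * Real.cos φ < c →
    Trapped P E (i, s, φ) → Trapped P E (i, s', φ) →
    ∃ j, ∀ r ∈ Icc s s', ∃ z', P.Step (i, r, φ) z' ∧ z'.1 = j

section cyclic

variable {n : ℕ} [NeZero n]

/-- The side vectors of the closed polygon with the vertices `w 0, ..., w (n - 1)`. -/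
def ed (w : Fin n → ℂ) (i : Fin n) : ℂ := w (i + 1) - w i

/-- The points `w 0, ..., w (n - 1)` are, in counterclockwise order, the vertices of a strictly
convex polygon. -/
def ConvPos (w : Fin n → ℂ) : Prop :=
  ∀ i j, j ≠ i → j ≠ i + 1 → 0 < cr (ed w i) (w j - w i)

/-- The sides of the table `P` form a closed polygon `P.p 0, ..., P.p (n - 1)`. -/
def Cyc (P : Polygon (Fin n)) : Prop := ∀ i, P.q i = P.p (i + 1)

/-- `P` is a closed polygon whose vertices have distance less than `δ` from the points `w i`. -/
def Close (w : Fin n → ℂ) (δ : ℝ) (P : Polygon (Fin n)) : Prop :=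
  Cyc P ∧ ∀ i, ‖P.p i - w i‖ < δ

/-- The interior angle at the vertex `w (i + 1)` between the sides `i` and `i + 1`. -/
noncomputable def ang (w : Fin n → ℂ) (i : Fin n) : ℝ :=
  EuclideanGeometry.angle (w i) (w (i + 1)) (w (i + 2))

/-- The angle criterion at the vertex `w (i + 1)`, with interior angle `φ`: seen from this vertex,
all sides outside `E` (except for the sides `i` and `i + 1`) are at angles at most `c` from the
side `i + 1` (or all of them are at angles at most `c` from the side `i`), and there is a natural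
number `m` with `c < |π - 2 m φ| < 2 (φ - c)`. -/
def FanGood (w : Fin n → ℂ) (E : Set (Fin n)) (i : Fin n) : Prop :=
  ∃ c : ℝ, 0 ≤ c ∧
    ((∀ k, k ∉ E → k ≠ i → k ≠ i + 1 →
        EuclideanGeometry.angle (w (i + 2)) (w (i + 1)) (w k) ≤ c ∧
        EuclideanGeometry.angle (w (i + 2)) (w (i + 1)) (w (k + 1)) ≤ c) ∨
      (∀ k, k ∉ E → k ≠ i → k ≠ i + 1 →
        EuclideanGeometry.angle (w i) (w (i + 1)) (w k) ≤ c ∧
        EuclideanGeometry.angle (w i) (w (i + 1)) (w (k + 1)) ≤ c)) ∧
    ∃ m : ℕ, c < |Real.pi - 2 * m * ang w i| ∧ |Real.pi - 2 * m * ang w i| < 2 * (ang w i - c)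

end cyclic

end Pool.Agent.H79.BN
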