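import Pool.Agent.H93.BL.Targets
import Pool.Agent.H79.BN.Stmt

/-!
# Non-separation: targets of the modules, parts W and V
-/

namespace Pool.Agent.H79.BN

open MeasureTheory Set Filter Topology Pool.Agent.H93.BL

/-! ## Part W: the non-separation criterion -/

/-- the forward orbit of `z` exists for all times and visits the sides `κ 0, κ 1, ...` -/
def Code {ι : Type} (P : Polygon ι) (z : ι × ℝ × ℝ) (κ : ℕ → ι) : Prop :=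
  ∃ f : ℕ → ι × ℝ × ℝ, f 0 = z ∧ ∀ n, P.Step (f n) (f (n + 1)) ∧ (f n).1 = κ n

/-- length of the first `n` steps of an orbit -/
noncomputable def plen {ι : Type} (P : Polygon ι) (f : ℕ → ι × ℝ × ℝ) (n : ℕ) : ℝ :=
  ∑ m ∈ Finset.range n, dist (P.pos (f m)) (P.pos (f (m + 1)))

def T_W1 : Prop := ∀ (A B : Set (ℝ × ℝ)) (c : ℝ), 0 < c → MeasurableSet A → volume A ≠ 0 →
  (∀ x ∈ A, -(Real.pi / 2) < x.2 ∧ x.2 < Real.pi / 2) → volume (A \ B) = 0 →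
  ∃ (q a c0 : ℝ) (Φ : Set ℝ), 0 < a ∧ 0 < c0 ∧ volume Φ ≠ 0 ∧
    ∀ φ ∈ Φ, |φ| < Real.pi / 2 ∧ c0 < Real.cos φ ∧
      ∃ s s', (s, φ) ∈ B ∧ (s', φ) ∈ B ∧ s < q - a ∧ q + a < s' ∧ s' - s < c

def T_W2 : Prop := ∀ (Φ : Set ℝ) (κ K M : ℝ), volume Φ ≠ 0 → 0 < κ → 0 < K →
  ∃ (D : ℝ) (m : ℕ) (θ : ℕ → ℝ), 0 < D ∧ M ≤ D ∧ (∀ k ≤ m, θ k ∈ Φ) ∧
    (∀ k < m, θ k < θ (k + 1) ∧ (θ (k + 1) - θ k) * D < κ) ∧ K < (θ m - θ 0) * D ∧
    θ m - θ 0 ≤ 1 / 2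

/-- one step of a strip -/
def T_W3 : Prop := ∀ (ι : Type) (P : Polygon ι) (E : Set ι) (c : ℝ) (i : ι) (a b φ : ℝ),
  NonSep P E c → a < b → (b - a) * Real.cos φ < c → Trapped P E (i, a, φ) →
  Trapped P E (i, b, φ) →
  ∃ (j : ι) (a' b' φ' : ℝ), a' < b' ∧ (b' - a') * Real.cos φ' = (b - a) * Real.cos φ ∧
    Trapped P E (j, a', φ') ∧ Trapped P E (j, b', φ') ∧
    ∀ r ∈ Icc a b, ∃ r' ∈ Icc a' b', P.Step (i, r, φ) (j, r', φ')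

/-- strips are never cut -/
def T_W4 : Prop := ∀ (ι : Type) (P : Polygon ι) (E : Set ι) (c : ℝ) (i : ι) (a b φ : ℝ),
  NonSep P E c → a < b → (b - a) * Real.cos φ < c → Trapped P E (i, a, φ) →
  Trapped P E (i, b, φ) → ∃ κ : ℕ → ι, ∀ r ∈ Icc a b, Code P (i, r, φ) κ

/-- a ray which stays in an uncut strip hits the same side as the strip -/
def T_W5 : Prop := ∀ (ι : Type) [Finite ι] (P : Polygon ι) (j k : ι) (r0 φ h : ℝ)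
  (z' z'' : ι × ℝ × ℝ), P.Phase (j, r0, φ) → 0 < h →
  (∀ r, |(r - r0) * Real.cos φ| < h → ∃ z, P.Step (j, r, φ) z ∧ z.1 = k) →
  z'.1 = j → P.Step z' z'' →
  |cr (P.dir (j, r0, φ)) (P.pos z' - P.pos (j, r0, φ))| < h →
  |cr (P.dir (j, r0, φ)) (P.pos z'' - P.pos (j, r0, φ))| < h → z''.1 = k

/-- two parallel orbits with the same code -/
def T_W6 : Prop := ∀ (ι : Type) (P : Polygon ι) (i : ι) (r q φ : ℝ) (f g : ℕ → ι × ℝ × ℝ) (N : ℕ),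
  f 0 = (i, r, φ) → g 0 = (i, q, φ) → (∀ n < N, P.Step (f n) (f (n + 1))) →
  (∀ n < N, P.Step (g n) (g (n + 1))) → (∀ n ≤ N, (f n).1 = (g n).1) →
  ∀ n ≤ N, (f n).2.2 = (g n).2.2 ∧
    ((f n).2.1 - (g n).2.1) * Real.cos (g n).2.2 = (-1) ^ n * ((r - q) * Real.cos φ)

/-- the transversal coordinate of an orbit relative to another one with the same code -/
def T_W7 : Prop := ∀ (ι : Type) (P : Polygon ι) (f g : ℕ → ι × ℝ × ℝ) (N : ℕ),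
  P.pos (f 0) = P.pos (g 0) → (∀ n < N, P.Step (f n) (f (n + 1))) →
  (∀ n < N, P.Step (g n) (g (n + 1))) → (∀ n ≤ N, (f n).1 = (g n).1) →
  ∀ n ≤ N, cr (P.dir (f n)) (P.dir (g n)) = (-1) ^ n * cr (P.dir (f 0)) (P.dir (g 0)) ∧
    cr (P.dir (f n)) (P.pos (g n) - P.pos (f n)) =
      (-1) ^ n * (plen P g n * cr (P.dir (f 0)) (P.dir (g 0)))

/-- transfer of the code from a strip to a ray -/
def T_W8 : Prop := ∀ (ι : Type) [Finite ι] (P : Polygon ι) (i : ι) (q a φ φ' : ℝ) (κ : ℕ → ι)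
  (N : ℕ) (g : ℕ → ι × ℝ × ℝ), 0 < a → (∀ r, |r - q| < a → Code P (i, r, φ) κ) →
  g 0 = (i, q, φ') → (∀ n, P.Step (g n) (g (n + 1))) →
  (∀ n ≤ N, plen P g n * |φ' - φ| < a * Real.cos φ) → ∀ n ≤ N, (g n).1 = κ n

/-- an infinite orbit has infinite length -/
def T_W9 : Prop := ∀ (ι : Type) [Finite ι] (P : Polygon ι) (f : ℕ → ι × ℝ × ℝ),
  (∀ n, P.Step (f n) (f (n + 1))) → ∀ D : ℝ, ∃ n, D < plen P f n

/-- comparison of the lengths of two orbits with the same code (unfolding) -/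
def T_W10 : Prop := ∀ (ι : Type) (P : Polygon ι) (f g : ℕ → ι × ℝ × ℝ) (N : ℕ),
  P.pos (f 0) = P.pos (g 0) → (∀ n < N, P.Step (f n) (f (n + 1))) →
  (∀ n < N, P.Step (g n) (g (n + 1))) → (∀ n ≤ N, (f n).1 = (g n).1) →
  ‖(plen P f N : ℂ) * P.dir (f 0) - (plen P g N : ℂ) * P.dir (g 0)‖ =
    dist (P.pos (f N)) (P.pos (g N))

/-- the contradiction from a chain of strips -/
def T_W11 : Prop := ∀ (ι : Type) [Finite ι] (P : Polygon ι) (i : ι) (q a c0 : ℝ) (Φ : Set ℝ),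
  0 < a → 0 < c0 → volume Φ ≠ 0 → (∀ φ ∈ Φ, |φ| < Real.pi / 2 ∧ c0 < Real.cos φ ∧
    ∃ κ : ℕ → ι, ∀ r, |r - q| < a → Code P (i, r, φ) κ) → False

/-- THEOREM 1: the non-separation criterion -/
def T_W12 : Prop := ∀ (ι : Type) [Fintype ι] (P : Polygon ι) (E : Set ι) (c : ℝ), 0 < c →
  NonSep P E c → P.Determines E

/-! ## Part V: convex polygons, stable criterion -/

section cyclic

variable {n : ℕ} [NeZero n]

/-- the orbit of `z` exists for all positive times and avoids `E` -/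
def Surv {ι : Type} (P : Polygon ι) (E : Set ι) (z : ι × ℝ × ℝ) : Prop :=
  ∃ f : ℕ → ι × ℝ × ℝ, f 0 = z ∧ ∀ n, P.Step (f n) (f (n + 1)) ∧ (f n).1 ∉ E

/-- the state (position `y`, direction `d`) is absorbed by `E`, with a neighbourhood, uniformly for
all polygons close to `w` -/
def Ab (w : Fin n → ℂ) (E : Set (Fin n)) (y d : ℂ) : Prop :=
  ∃ δ > (0 : ℝ), ∀ P : Polygon (Fin n), Close w δ P → ∀ z, ‖P.pos z - y‖ < δ →
    ‖P.dir z - d / (‖d‖ : ℂ)‖ < δ → ¬ Surv P E z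

/-- all states on a line are absorbed -/
def AbL (w : Fin n → ℂ) (E : Set (Fin n)) (X d : ℂ) : Prop := ∀ τ : ℝ, Ab w E (X + (τ : ℂ) * d) d

/-- reflection of directions, multiplied by `‖e‖ ^ 2` -/
noncomputable def rf (e v : ℂ) : ℂ := e ^ 2 * (starRingEnd ℂ) v

/-- reflection of points in the line through `a` with direction `e` -/
noncomputable def afn (a e X : ℂ) : ℂ := a + rf e (X - a) / ((‖e‖ ^ 2 : ℝ) : ℂ)

/-- the vertex criterion at the vertex `w (i + 1)` -/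
def FreeV (w : Fin n → ℂ) (E : Set (Fin n)) (i : Fin n) : Prop :=
  ∀ d : ℂ, d ≠ 0 → cr (ed w i) d ≤ 0 → cr (ed w (i + 1)) d ≤ 0 →
    Ab w E (w (i + 1)) (-d) ∨
    (cr (ed w i) d < 0 ∧ Ab w E (w (i + 1)) (rf (ed w i) d)) ∨
    (cr (ed w (i + 1)) d < 0 ∧ Ab w E (w (i + 1)) (rf (ed w (i + 1)) d))

end cyclic

/-- cyclic index arithmetic -/
def T_V0 : Prop := ∀ (n : ℕ) [NeZero n], 3 ≤ n → ∀ i : Fin n,
  i + 1 ≠ i ∧ i + 2 ≠ i ∧ i + 2 ≠ i + 1 ∧ i + 1 + 1 = i + 2 ∧ i - 1 ≠ i ∧ i - 1 + 1 = i ∧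
  i + 1 - 1 = i ∧ i - 1 ≠ i + 1 ∧ i - 1 - 1 = i - 2 ∧ i + 1 - 2 = i - 1

/-- elementary consequences of strict convexity -/
def T_V1 : Prop := ∀ (n : ℕ) [NeZero n] (w : Fin n → ℂ), 3 ≤ n → ConvPos w →
  (∀ i, ed w i ≠ 0) ∧ (∀ i j, w i = w j → i = j) ∧ (∀ i, 0 < cr (ed w i) (ed w (i + 1))) ∧
  (∀ i j, 0 ≤ cr (ed w i) (w j - w i)) ∧
  (∀ i j, cr (ed w i) (w j - w i) = 0 → j = i ∨ j = i + 1)

/-- the closed polygon meets the line of a side in this side -/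
def T_V2 : Prop := ∀ (n : ℕ) [NeZero n] (w : Fin n → ℂ), 3 ≤ n → ConvPos w → ∀ (j : Fin n) (x : ℂ),
  (∀ i, 0 ≤ cr (ed w i) (x - w i)) → cr (ed w j) (x - w j) = 0 →
  x ∈ segment ℝ (w j) (w (j + 1))

/-- two sides of a strictly convex polygon: common points -/
def T_V3 : Prop := ∀ (n : ℕ) [NeZero n] (w : Fin n → ℂ), 3 ≤ n → ConvPos w → ∀ (j k : Fin n) (x : ℂ),
  x ∈ segment ℝ (w k) (w (k + 1)) →
  (∀ i, 0 ≤ cr (ed w i) (x - w i)) ∧ cr (ed w k) (x - w k) = 0 ∧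
  (x ∈ openSegment ℝ (w j) (w (j + 1)) → k = j) ∧
  (x = w j → k = j - 1 ∨ k = j) ∧
  (k ≠ j → cr (ed w j) (x - w j) = 0 → (x = w j ∧ k = j - 1) ∨ (x = w (j + 1) ∧ k = j + 1))

/-- strict convexity is stable -/
def T_V4 : Prop := ∀ (n : ℕ) [NeZero n] (w : Fin n → ℂ), ConvPos w →
  ∃ δ > (0 : ℝ), ∀ p : Fin n → ℂ, (∀ i, ‖p i - w i‖ < δ) → ConvPos p

/-- the interior of a table with vertices in convex position -/
def T_V5 : Prop := ∀ (n : ℕ) [NeZero n] (P : Polygon (Fin n)), 3 ≤ n → Cyc P → ConvPos P.p →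
  ∀ x, x ∈ P.Ω ↔ ∀ j, 0 < cr (ed P.p j) (x - P.p j)

/-- rays between two parallel rays which hit the side `j` hit the side `j` -/
def T_V6 : Prop := ∀ (n : ℕ) [NeZero n] (P : Polygon (Fin n)), 3 ≤ n → Cyc P → ConvPos P.p →
  ∀ (i j : Fin n) (s s' φ : ℝ) (z z' : Fin n × ℝ × ℝ), s < s' → P.Step (i, s, φ) z →
    P.Step (i, s', φ) z' → z.1 = j → z'.1 = j →
    ∀ r ∈ Icc s s', ∃ z'', P.Step (i, r, φ) z'' ∧ z''.1 = j

/-- limits of steps -/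
def T_V7 : Prop := ∀ (n : ℕ) [NeZero n] (w : Fin n → ℂ), 3 ≤ n → ConvPos w →
  ∀ (F : Ultrafilter ℕ) (P : ℕ → Polygon (Fin n)) (z z' : ℕ → Fin n × ℝ × ℝ) (s : Fin n) (y d : ℂ),
  (∀ δ > (0 : ℝ), ∀ᶠ k in (F : Filter ℕ), Close w δ (P k)) →
  (∀ᶠ k in (F : Filter ℕ), (P k).Step (z k) (z' k) ∧ (z' k).1 = s) →
  Tendsto (fun k => (P k).pos (z k)) F (𝓝 y) → Tendsto (fun k => (P k).dir (z k)) F (𝓝 d) →
  ∃ t : ℝ, 0 ≤ t ∧ y + (t : ℂ) * d ∈ segment ℝ (w s) (w (s + 1)) ∧ cr (ed w s) d ≤ 0 ∧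
    Tendsto (fun k => (P k).pos (z' k)) F (𝓝 (y + (t : ℂ) * d)) ∧
    Tendsto (fun k => (P k).dir (z' k)) F (𝓝 (rf (ed w s) d / ((‖ed w s‖ ^ 2 : ℝ) : ℂ)))

/-- `Ab` fails along sequences -/
def T_V8 : Prop := ∀ (n : ℕ) [NeZero n] (w : Fin n → ℂ) (E : Set (Fin n)) (y d : ℂ),
  ¬ Ab w E y d → ∃ (P : ℕ → Polygon (Fin n)) (z : ℕ → Fin n × ℝ × ℝ),
    (∀ δ > (0 : ℝ), ∀ᶠ k in atTop, Close w δ (P k)) ∧ (∀ k, Surv (P k) E (z k)) ∧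
    Tendsto (fun k => (P k).pos (z k)) atTop (𝓝 y) ∧
    Tendsto (fun k => (P k).dir (z k)) atTop (𝓝 (d / (‖d‖ : ℂ)))

/-- surviving states cannot converge to an absorbed state -/
def T_V9 : Prop := ∀ (n : ℕ) [NeZero n] (w : Fin n → ℂ) (E : Set (Fin n)) (y d : ℂ), Ab w E y d →
  ∀ (F : Ultrafilter ℕ) (P : ℕ → Polygon (Fin n)) (z : ℕ → Fin n × ℝ × ℝ) (d' : ℂ),
    (∀ δ > (0 : ℝ), ∀ᶠ k in (F : Filter ℕ), Close w δ (P k)) →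
    (∀ᶠ k in (F : Filter ℕ), Surv (P k) E (z k)) →
    Tendsto (fun k => (P k).pos (z k)) F (𝓝 y) → Tendsto (fun k => (P k).dir (z k)) F (𝓝 d') →
    (∃ c : ℝ, 0 < c ∧ d = (c : ℂ) * d') → False

/-- Rule M -/
def T_RM : Prop := ∀ (n : ℕ) [NeZero n] (w : Fin n → ℂ) (E : Set (Fin n)) (y d : ℂ), 3 ≤ n →
  ConvPos w → d ≠ 0 →
  (∀ s, s ∉ E → ∀ t : ℝ, 0 ≤ t → y + (t : ℂ) * d ∈ segment ℝ (w s) (w (s + 1)) →
    cr (ed w s) d ≤ 0 → Ab w E (y + (t : ℂ) * d) (rf (ed w s) d)) → Ab w E y d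

/-- exits of a line through an inner point of a side, through a vertex, at a corner, along a
side -/
def T_X1 : Prop := ∀ (n : ℕ) [NeZero n] (w : Fin n → ℂ), 3 ≤ n → ConvPos w →
  ∀ (X d : ℂ) (s k : Fin n) (τ : ℝ), X + (τ : ℂ) * d ∈ segment ℝ (w k) (w (k + 1)) →
    cr (ed w k) d ≤ 0 →
    (cr d (w s - X) < 0 → 0 < cr d (w (s + 1) - X) → k = s) ∧
    (cr d (w s - X) = 0 → cr (ed w (s - 1)) d < 0 → cr (ed w s) d < 0 →
      (k = s - 1 ∨ k = s) ∧ X + (τ : ℂ) * d = w s) ∧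
    (X = w s → 0 < cr (ed w (s - 1)) d → cr (ed w s) d < 0 → k = s ∧ X + (τ : ℂ) * d = w s) ∧
    (X = w s → cr (ed w (s - 1)) d < 0 → 0 < cr (ed w s) d →
      k = s - 1 ∧ X + (τ : ℂ) * d = w s)

def T_X2 : Prop := ∀ (n : ℕ) [NeZero n] (w : Fin n → ℂ), 3 ≤ n → ConvPos w →
  ∀ (d : ℂ) (s k : Fin n) (τ c : ℝ), 0 < c → w s + (τ : ℂ) * d ∈ segment ℝ (w k) (w (k + 1)) →
    cr (ed w k) d ≤ 0 →
    (d = (c : ℂ) * ed w s → k = s ∨ (k = s + 1 ∧ w s + (τ : ℂ) * d = w (s + 1))) ∧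
    (d = -((c : ℂ) * ed w (s - 1)) →
      k = s - 1 ∨ (k = s - 2 ∧ w s + (τ : ℂ) * d = w (s - 1)))

/-- rule for crossing a side -/
def T_RC : Prop := ∀ (n : ℕ) [NeZero n] (w : Fin n → ℂ) (E : Set (Fin n)) (X d : ℂ) (s : Fin n),
  3 ≤ n → ConvPos w → cr d (w s - X) < 0 → 0 < cr d (w (s + 1) - X) →
  (s ∈ E ∨ AbL w E (afn (w s) (ed w s) X) (rf (ed w s) d)) → AbL w E X d

/-- rule for a vertex -/
def T_RV : Prop := ∀ (n : ℕ) [NeZero n] (w : Fin n → ℂ) (E : Set (Fin n)) (X d : ℂ) (s : Fin n),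
  3 ≤ n → ConvPos w → cr d (w s - X) = 0 → cr (ed w (s - 1)) d < 0 → cr (ed w s) d < 0 →
  (s - 1 ∈ E ∨ Ab w E (w s) (rf (ed w (s - 1)) d)) → (s ∈ E ∨ Ab w E (w s) (rf (ed w s) d)) →
  AbL w E X d

/-- rule for a corner -/
def T_RK : Prop := ∀ (n : ℕ) [NeZero n] (w : Fin n → ℂ) (E : Set (Fin n)) (d : ℂ) (s : Fin n),
  3 ≤ n → ConvPos w →
  (0 < cr (ed w (s - 1)) d → cr (ed w s) d < 0 → (s ∈ E ∨ Ab w E (w s) (rf (ed w s) d)) →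
    AbL w E (w s) d) ∧
  (cr (ed w (s - 1)) d < 0 → 0 < cr (ed w s) d →
    (s - 1 ∈ E ∨ Ab w E (w s) (rf (ed w (s - 1)) d)) → AbL w E (w s) d)

/-- rule for directions parallel to a side -/
def T_RP : Prop := ∀ (n : ℕ) [NeZero n] (w : Fin n → ℂ) (E : Set (Fin n)) (d : ℂ) (s : Fin n)
  (c : ℝ), 3 ≤ n → ConvPos w → 0 < c →
  (d = (c : ℂ) * ed w s → (s + 1 ∈ E ∨ Ab w E (w (s + 1)) (rf (ed w (s + 1)) d)) →
    AbL w E (w s) d) ∧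
  (d = -((c : ℂ) * ed w (s - 1)) → (s - 2 ∈ E ∨ Ab w E (w (s - 1)) (rf (ed w (s - 2)) d)) →
    AbL w E (w s) d)

/-- a separated pair in the limit -/
def T_Y1 : Prop := ∀ (n : ℕ) [NeZero n] (w : Fin n → ℂ), 3 ≤ n → ConvPos w →
  ∀ (X d : ℂ) (j k : Fin n) (t t' : ℝ), d ≠ 0 → j ≠ k →
    X + (t : ℂ) * d ∈ segment ℝ (w j) (w (j + 1)) → cr (ed w j) d ≤ 0 →
    X + (t' : ℂ) * d ∈ segment ℝ (w k) (w (k + 1)) → cr (ed w k) d ≤ 0 →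
    ∃ i, ((j = i ∧ k = i + 1) ∨ (j = i + 1 ∧ k = i)) ∧
      (cr (ed w j) d < 0 → X + (t : ℂ) * d = w (i + 1)) ∧
      (cr (ed w k) d < 0 → X + (t' : ℂ) * d = w (i + 1)) ∧
      (cr (ed w j) d < 0 ∨ cr (ed w k) d < 0)

/-- a sequence of separated pairs of trapped rays: `f k` and `f' k` are two sided orbits in the
polygon `P k`, avoiding `E`, which start in parallel on the same side, at a transversal distance
tending to 0, and hit different sides `j`, `j'` -/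
structure SepSeq {n : ℕ} [NeZero n] (w : Fin n → ℂ) (E : Set (Fin n)) where
  F : Ultrafilter ℕ
  P : ℕ → Polygon (Fin n)
  f : ℕ → ℤ → Fin n × ℝ × ℝ
  f' : ℕ → ℤ → Fin n × ℝ × ℝ
  j : Fin n
  j' : Fin n
  close : ∀ δ > (0 : ℝ), ∀ᶠ k in (F : Filter ℕ), Close w δ (P k)
  step : ∀ k m, (P k).Step (f k m) (f k (m + 1)) ∧ (f k m).1 ∉ E
  step' : ∀ k m, (P k).Step (f' k m) (f' k (m + 1)) ∧ (f' k m).1 ∉ E
  par : ∀ k, (f k 0).1 = (f' k 0).1 ∧ (f k 0).2.2 = (f' k 0).2.2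
  near : Tendsto (fun k => cr ((P k).dir (f k 0)) ((P k).pos (f' k 0) - (P k).pos (f k 0))) F
    (𝓝 0)
  hit : ∀ᶠ k in (F : Filter ℕ), (f k 1).1 = j ∧ (f' k 1).1 = j'
  ne : j ≠ j'

/-- if non-separation is not uniform near `w` there is a sequence of separated pairs -/
def T_Y2A : Prop := ∀ (n : ℕ) [NeZero n] (w : Fin n → ℂ) (E : Set (Fin n)), 3 ≤ n → ConvPos w →
  (¬ ∃ δ > (0 : ℝ), ∀ P : Polygon (Fin n), Close w δ P → NonSep P E δ) → Nonempty (SepSeq w E)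

/-- the limit of a sequence of separated pairs -/
def T_Y2B : Prop := ∀ (n : ℕ) [NeZero n] (w : Fin n → ℂ) (E : Set (Fin n)) (S : SepSeq w E),
  3 ≤ n → ConvPos w → ∃ (X d : ℂ) (t t' : ℝ), ‖d‖ = 1 ∧
    Tendsto (fun k => (S.P k).dir (S.f k 0)) S.F (𝓝 d) ∧
    Tendsto (fun k => (S.P k).dir (S.f' k 0)) S.F (𝓝 d) ∧
    X + (t : ℂ) * d ∈ segment ℝ (w S.j) (w (S.j + 1)) ∧ cr (ed w S.j) d ≤ 0 ∧
    X + (t' : ℂ) * d ∈ segment ℝ (w S.j') (w (S.j' + 1)) ∧ cr (ed w S.j') d ≤ 0 ∧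
    Tendsto (fun k => (S.P k).pos (S.f k 1)) S.F (𝓝 (X + (t : ℂ) * d)) ∧
    Tendsto (fun k => (S.P k).pos (S.f' k 1)) S.F (𝓝 (X + (t' : ℂ) * d)) ∧
    Tendsto (fun k => (S.P k).dir (S.f k 1)) S.F
      (𝓝 (rf (ed w S.j) d / ((‖ed w S.j‖ ^ 2 : ℝ) : ℂ))) ∧
    Tendsto (fun k => (S.P k).dir (S.f' k 1)) S.F
      (𝓝 (rf (ed w S.j') d / ((‖ed w S.j'‖ ^ 2 : ℝ) : ℂ)))

/-- the vertex criterion excludes sequences of separated pairs -/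
def T_Y2C : Prop := ∀ (n : ℕ) [NeZero n] (w : Fin n → ℂ) (E : Set (Fin n)) (_ : SepSeq w E),
  3 ≤ n → ConvPos w → (∀ i, i ∉ E → i + 1 ∉ E → FreeV w E i) → False

/-- the vertex criterion implies uniform non-separation in a neighbourhood -/
def T_Y2 : Prop := ∀ (n : ℕ) [NeZero n] (w : Fin n → ℂ) (E : Set (Fin n)), 3 ≤ n → ConvPos w →
  (∀ i, i ∉ E → i + 1 ∉ E → FreeV w E i) →
  ∃ δ > (0 : ℝ), ∀ P : Polygon (Fin n), Close w δ P → NonSep P E δ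

/-- THEOREM 2 -/
def T_Y3 : Prop := ∀ (n : ℕ) [NeZero n] (w : Fin n → ℂ) (E : Set (Fin n)), 3 ≤ n → ConvPos w →
  (∀ i, i ∉ E → i + 1 ∉ E → FreeV w E i) →
  ∃ δ > (0 : ℝ), ∀ P : Polygon (Fin n), Close w δ P → P.Determines E

/-- the open convex polygon with the vertices `w` -/
def Omw {n : ℕ} [NeZero n] (w : Fin n → ℂ) : Set ℂ := {x | ∀ j, 0 < cr (ed w j) (x - w j)}

def T_EXA : Prop := ∀ (n : ℕ) [NeZero n] (w : Fin n → ℂ), 3 ≤ n → ConvPos w →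
  IsOpen (Omw w) ∧ Convex ℝ (Omw w) ∧ (Omw w).Nonempty ∧ Bornology.IsBounded (Omw w)

def T_EXB : Prop := ∀ (n : ℕ) [NeZero n] (w : Fin n → ℂ), 3 ≤ n → ConvPos w →
  frontier (Omw w) = ⋃ i, segment ℝ (w i) (w (i + 1))

/-- every strictly convex polygon is (the boundary of) a table -/
def T_EX : Prop := ∀ (n : ℕ) [NeZero n] (w : Fin n → ℂ), 3 ≤ n → ConvPos w →
  ∃ P : Polygon (Fin n), Cyc P ∧ P.p = w

end Pool.Agent.H79.BN
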