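import Pool.Agent.H11.BN.W2
import Pool.Agent.H20.BN.C1
import Pool.Agent.H20.BN.C2
import Pool.Agent.H20.BN.C6
import Pool.Agent.H20.BN.EXA
import Pool.Agent.H27.BN.C5
import Pool.Agent.H27.BN.F3
import Pool.Agent.H27.BN.F5
import Pool.Agent.H34.BN.EXB
import Pool.Agent.H34.BN.W3
import Pool.Agent.H35.BN.Y2C
import Pool.Agent.H39.BN.C3
import Pool.Agent.H4.BN.W6
import Pool.Agent.H4.BN.W7
import Pool.Agent.H4.BN.W8
import Pool.Agent.H42.BN.RC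
import Pool.Agent.H42.BN.V1
import Pool.Agent.H42.BN.V2
import Pool.Agent.H42.BN.W1
import Pool.Agent.H44.BN.EX
import Pool.Agent.H47.BN.W5
import Pool.Agent.H54.BN.V6
import Pool.Agent.H55.BN.F4
import Pool.Agent.H62.BN.F7
import Pool.Agent.H62.BN.RP
import Pool.Agent.H62.BN.W11
import Pool.Agent.H63.BN.Y1
import Pool.Agent.H7.BN.F1
import Pool.Agent.H7.BN.F2
import Pool.Agent.H74.BN.V5
import Pool.Agent.H75.BN.C4
import Pool.Agent.H75.BN.W10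
import Pool.Agent.H77.BN.RV
import Pool.Agent.H77.BN.V4
import Pool.Agent.H79.BN.Triv
import Pool.Agent.H80.BN.F6
import Pool.Agent.H88.BN.V3
import Pool.Agent.H88.BN.V7
import Pool.Agent.H91.BN.V9
import Pool.Agent.H91.BN.X1
import Pool.Agent.H91.BN.Y2A
import Pool.Agent.H91.BN.Y2B
import Pool.Agent.H93.BN.V8
import Pool.Agent.H93.BN.W12
import Pool.Agent.H93.BN.W4
import Pool.Agent.H93.BN.W9
import Pool.Agent.H94.BN.RM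
import Pool.Agent.H94.BN.X2
import Pool.Agent.H79.BN.C7

/-! # Non-separation: all modules -/

namespace Pool.Agent.H79.BN.All

open Pool.Agent.H79.BN

theorem pV0 : T_V0 := Pool.Agent.H79.BN.v0
theorem pF0 : T_F0 := Pool.Agent.H79.BN.f0
theorem pV1 : T_V1 := Pool.Agent.H42.BN.v1 pV0
theorem pV2 : T_V2 := Pool.Agent.H42.BN.v2 pV0 pV1
theorem pV3 : T_V3 := Pool.Agent.H88.BN.v3 pV0 pV1
theorem pV4 : T_V4 := Pool.Agent.H77.BN.v4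
theorem pV5 : T_V5 := Pool.Agent.H74.BN.V5.v5 pV1 pV2
theorem pV6 : T_V6 := Pool.Agent.H54.BN.V6.v6 pV1 pV3 pV5
theorem pV7 : T_V7 := Pool.Agent.H88.BN.v7 pV1
theorem pV8 : T_V8 := Pool.Agent.H93.BN.v8
theorem pV9 : T_V9 := Pool.Agent.H91.BN.v9
theorem pRM : T_RM := Pool.Agent.H94.BN.rm pV1 pV7 pV8 pV9
theorem pX1 : T_X1 := Pool.Agent.H91.BN.x1 pV0 pV1 pV3
theorem pX2 : T_X2 := Pool.Agent.H94.BN.x2 pV0 pV1 pV3
theorem pRC : T_RC := Pool.Agent.H42.BN.rc pV1 pV3 pRM pX1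
theorem pRV : T_RV := Pool.Agent.H77.BN.rv pRM pX1
theorem pRK : T_RK := Pool.Agent.H94.BN.rk pRM pX1
theorem pRP : T_RP := Pool.Agent.H62.BN.rp pV0 pV1 pV7 pV8 pV9 pX2
theorem pY1 : T_Y1 := Pool.Agent.H63.BN.y1 pV0 pV1 pV3
theorem pY2A : T_Y2A := Pool.Agent.H91.BN.y2a pV4 pV6
theorem pY2B : T_Y2B := Pool.Agent.H91.BN.y2b pV7
theorem pY2C : T_Y2C := Pool.Agent.H35.BN.y2c pV9 pY1 pY2B
theorem pY2 : T_Y2 := Pool.Agent.H79.BN.y2 pY2A pY2C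
theorem pW1 : T_W1 := Pool.Agent.H42.BN.w1
theorem pW2 : T_W2 := Pool.Agent.H11.BN.w2
theorem pW3 : T_W3 := Pool.Agent.H34.BN.w3
theorem pW4 : T_W4 := Pool.Agent.H93.BN.w4 pW3
theorem pW5 : T_W5 := Pool.Agent.H47.BN.w5
theorem pW6 : T_W6 := Pool.Agent.H4.BN.w6
theorem pW7 : T_W7 := Pool.Agent.H4.BN.w7
theorem pW8 : T_W8 := Pool.Agent.H4.BN.w8 pW5 pW6 pW7
theorem pW9 : T_W9 := Pool.Agent.H93.BN.w9
theorem pW10 : T_W10 := Pool.Agent.H75.BN.w10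
theorem pW11 : T_W11 := Pool.Agent.H62.BN.w11 pW2 pW8 pW9 pW10
theorem pW12 : T_W12 := Pool.Agent.H93.BN.w12 pW1 pW4 pW11
theorem pY3 : T_Y3 := Pool.Agent.H79.BN.y3 pW12 pY2
theorem pEXA : T_EXA := Pool.Agent.H20.BN.exa pV0 pV1
theorem pEXB : T_EXB := Pool.Agent.H34.BN.exb pV1 pV2 pV3 pEXA
theorem pEX : T_EX := Pool.Agent.H44.BN.ex pV0 pV1 pV3 pEXA pEXB
theorem pF1 : T_F1 := Pool.Agent.H7.BN.f1 pV0 pV1
theorem pF2 : T_F2 := Pool.Agent.H7.BN.f2 pV1 pF1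
theorem pF3 : T_F3 := Pool.Agent.H27.BN.F3.f3 pV0 pV1 pV3 pRM pRP pF0 pF1 pF2
theorem pF4 : T_F4 := Pool.Agent.H55.BN.f4 pV0 pV1 pRK pF0 pF1 pF2
theorem pF5 : T_F5 := Pool.Agent.H27.BN.f5 pF0 pF1 pF2 pF3 pF4
theorem pF6 : T_F6 := Pool.Agent.H80.BN.f6
theorem pF7 : T_F7 := Pool.Agent.H62.BN.f7
theorem pF8 : T_F8 := Pool.Agent.H79.BN.f8 pY3 pF5
theorem pC1 : T_C1 := Pool.Agent.H20.BN.c1
theorem pC2 : T_C2 := Pool.Agent.H20.BN.c2 pC1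
theorem pC3 : T_C3 := Pool.Agent.H39.BN.c3 pV1 pRC pRV pRK pRP pF0 pC1 pC2
theorem pC4 : T_C4 := Pool.Agent.H75.BN.c4
theorem pC5 : T_C5 := Pool.Agent.H27.BN.C5.c5 pV1 pC1 pC2 pC3 pC4 pF0
theorem pC6 : T_C6 := Pool.Agent.H20.BN.c6

end Pool.Agent.H79.BN.All
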