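import Pool.Agent.H79.BN.Targets

/-!
# Non-separation: certificates (part C)

Numbers `a + b √5` with integers `a`, `b`, points `x + i √D y` with such numbers, and the checker.
-/

namespace Pool.Agent.H79.BN

open Set Pool.Agent.H93.BL

/-- the number `a + b √5` -/
structure Z5 where
  a : ℤ
  b : ℤ
deriving DecidableEq

namespace Z5

noncomputable def val (x : Z5) : ℝ := x.a + x.b * √5

def add (x y : Z5) : Z5 := ⟨x.a + y.a, x.b + y.b⟩
def sub (x y : Z5) : Z5 := ⟨x.a - y.a, x.b - y.b⟩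
def mul (x y : Z5) : Z5 := ⟨x.a * y.a + 5 * (x.b * y.b), x.a * y.b + x.b * y.a⟩
def neg (x : Z5) : Z5 := ⟨-x.a, -x.b⟩

/-- test for positive numbers -/
def pos (x : Z5) : Bool :=
  if 0 ≤ x.a then
    (if 0 ≤ x.b then (decide (0 < x.a) || decide (0 < x.b))
      else decide (5 * (x.b * x.b) < x.a * x.a))
  else (decide (0 < x.b) && decide (x.a * x.a < 5 * (x.b * x.b)))

/-- test for zero -/
def isz (x : Z5) : Bool := decide (x.a = 0) && decide (x.b = 0)

def isneg (x : Z5) : Bool := x.neg.pos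
def nonneg (x : Z5) : Bool := x.isz || x.pos
def nonpos (x : Z5) : Bool := x.isz || x.isneg

end Z5

/-- the point `x + i √D y` -/
structure Pt where
  x : Z5
  y : Z5
deriving DecidableEq

namespace Pt

noncomputable def val (D : Z5) (p : Pt) : ℂ := ⟨p.x.val, √D.val * p.y.val⟩

def add (p q : Pt) : Pt := ⟨p.x.add q.x, p.y.add q.y⟩
def sub (p q : Pt) : Pt := ⟨p.x.sub q.x, p.y.sub q.y⟩
def neg (p : Pt) : Pt := ⟨p.x.neg, p.y.neg⟩
def smul (l : Z5) (p : Pt) : Pt := ⟨l.mul p.x, l.mul p.y⟩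

/-- cross product (without the factor `√D`) -/
def crz (p q : Pt) : Z5 := (p.x.mul q.y).sub (p.y.mul q.x)

/-- scalar product -/
def ipz (D : Z5) (p q : Pt) : Z5 := (p.x.mul q.x).add (D.mul (p.y.mul q.y))

/-- `e ^ 2 * conj v` -/
def rfz (D : Z5) (e v : Pt) : Pt :=
  let A := (e.x.mul e.x).sub (D.mul (e.y.mul e.y))
  let B := (e.x.mul e.y).add (e.x.mul e.y)
  ⟨(A.mul v.x).add (D.mul (B.mul v.y)), (B.mul v.x).sub (A.mul v.y)⟩

end Pt

/-- certificates: a side which is crossed; a vertex which is hit (two continuations, for the sides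
`s - 1` and `s`); a bounce in a corner, on the side `s` or on the side `s - 1`, starting at the
vertex `s`; a direction along the side `s`, or along the side `s - 1`, starting at the vertex `s` -/
inductive Tr (n : ℕ) where
  | nil : Tr n
  | crs (s : Fin n) (t : Tr n) : Tr n
  | vtx (s : Fin n) (t1 t2 : Tr n) : Tr n
  | cor (s : Fin n) (t : Tr n) : Tr n
  | cor' (s : Fin n) (t : Tr n) : Tr n
  | par (s : Fin n) (t : Tr n) : Tr n
  | par' (s : Fin n) (t : Tr n) : Tr n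

section chk

variable {n : ℕ} [NeZero n] (w : Fin n → Pt) (D : Z5) (E : Fin n → Bool)

/-- side vectors -/
def edz (s : Fin n) : Pt := (w (s + 1)).sub (w s)

/-- strict sign of all positive combinations of `x` and `y` -/
def pos2 (x y : Z5) : Bool := x.nonneg && y.nonneg && (x.pos || y.pos)
def neg2 (x y : Z5) : Bool := x.nonpos && y.nonpos && (x.isneg || y.isneg)

/-- The checker. The rays start at the point `ξ / l`, their directions are the positive combinations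
of `d1` and `d2`. -/
def chk : Tr n → Pt → Z5 → Pt → Pt → Bool
  | .nil, _, _, _, _ => false
  | .crs s t, ξ, l, d1, d2 =>
    let ws := Pt.smul l (w s)
    let a := ws.sub ξ
    let b := (Pt.smul l (w (s + 1))).sub ξ
    neg2 (Pt.crz d1 a) (Pt.crz d2 a) && pos2 (Pt.crz d1 b) (Pt.crz d2 b) &&
      (E s || (let e := edz w s
        let N := Pt.ipz D e e
        chk t ((Pt.smul N ws).add (Pt.rfz D e (ξ.sub ws))) (l.mul N)
          (Pt.rfz D e d1) (Pt.rfz D e d2)))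
  | .vtx s t1 t2, ξ, l, d1, d2 =>
    let a := (Pt.smul l (w s)).sub ξ
    let e := edz w s
    let e' := edz w (s - 1)
    (Pt.crz d1 a).isz && (Pt.crz d2 a).isz &&
      neg2 (Pt.crz e d1) (Pt.crz e d2) && neg2 (Pt.crz e' d1) (Pt.crz e' d2) &&
      (E (s - 1) || chk t1 (w s) ⟨1, 0⟩ (Pt.rfz D e' d1) (Pt.rfz D e' d2)) &&
      (E s || chk t2 (w s) ⟨1, 0⟩ (Pt.rfz D e d1) (Pt.rfz D e d2))
  | .cor s t, ξ, l, d1, d2 =>
    let e := edz w s
    let e' := edz w (s - 1)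
    decide (ξ = Pt.smul l (w s)) && pos2 (Pt.crz e' d1) (Pt.crz e' d2) &&
      neg2 (Pt.crz e d1) (Pt.crz e d2) &&
      (E s || chk t (w s) ⟨1, 0⟩ (Pt.rfz D e d1) (Pt.rfz D e d2))
  | .cor' s t, ξ, l, d1, d2 =>
    let e := edz w s
    let e' := edz w (s - 1)
    decide (ξ = Pt.smul l (w s)) && pos2 (Pt.crz e d1) (Pt.crz e d2) &&
      neg2 (Pt.crz e' d1) (Pt.crz e' d2) &&
      (E (s - 1) || chk t (w s) ⟨1, 0⟩ (Pt.rfz D e' d1) (Pt.rfz D e' d2))
  | .par s t, ξ, l, d1, d2 =>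
    let e := edz w s
    let e' := edz w (s + 1)
    decide (ξ = Pt.smul l (w s)) && (Pt.crz e d1).isz && (Pt.crz e d2).isz &&
      (Pt.ipz D e d1).pos && (Pt.ipz D e d2).pos &&
      (E (s + 1) || chk t (w (s + 1)) ⟨1, 0⟩ (Pt.rfz D e' d1) (Pt.rfz D e' d2))
  | .par' s t, ξ, l, d1, d2 =>
    let e := edz w (s - 1)
    let e' := edz w (s - 2)
    decide (ξ = Pt.smul l (w s)) && (Pt.crz e d1).isz && (Pt.crz e d2).isz &&
      (Pt.ipz D e d1).isneg && (Pt.ipz D e d2).isneg &&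
      (E (s - 2) || chk t (w (s - 1)) ⟨1, 0⟩ (Pt.rfz D e' d1) (Pt.rfz D e' d2))

/-- the three options at the vertex `w (i + 1)` for the incoming directions spanned by `g1`,
`g2` -/
def chkOpt (i : Fin n) (o : ℕ) (t : Tr n) (g1 g2 : Pt) : Bool :=
  match o with
  | 0 => chk w D E t (w (i + 1)) ⟨1, 0⟩ g1.neg g2.neg
  | 1 => neg2 (Pt.crz (edz w i) g1) (Pt.crz (edz w i) g2) &&
      chk w D E t (w (i + 1)) ⟨1, 0⟩ (Pt.rfz D (edz w i) g1) (Pt.rfz D (edz w i) g2)
  | _ => neg2 (Pt.crz (edz w (i + 1)) g1) (Pt.crz (edz w (i + 1)) g2) &&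
      chk w D E t (w (i + 1)) ⟨1, 0⟩ (Pt.rfz D (edz w (i + 1)) g1) (Pt.rfz D (edz w (i + 1)) g2)

end chk

/-- a direction with its certificate, and the certificate of the open cone from this direction to
the direction of the next item -/
structure Item (n : ℕ) where
  g : Pt
  o : ℕ
  t : Tr n
  o' : ℕ
  t' : Tr n

/-- the covering of the cone from the first direction to the direction `gm` -/
def chkCov {n : ℕ} [NeZero n] (w : Fin n → Pt) (D : Z5) (E : Fin n → Bool) (i : Fin n) (gm : Pt) :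
    List (Item n) → Bool
  | [] => false
  | [a] => decide (a.g = gm) && chkOpt w D E i a.o a.t a.g a.g
  | a :: b :: L => (Pt.crz a.g b.g).isneg && (Pt.crz a.g gm).isneg &&
      chkOpt w D E i a.o a.t a.g a.g && chkOpt w D E i a.o' a.t' a.g b.g &&
      chkCov w D E i gm (b :: L)

/-- the certificate of the vertex `w (i + 1)` -/
def chkV {n : ℕ} [NeZero n] (w : Fin n → Pt) (D : Z5) (E : Fin n → Bool) (i : Fin n)
    (L : List (Item n)) : Bool :=
  (match L with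
    | [] => false
    | a :: _ => decide (a.g = edz w i)) && chkCov w D E i (edz w (i + 1)).neg L

/-- strict convexity -/
def chkConv {n : ℕ} [NeZero n] (w : Fin n → Pt) (i j : Fin n) : Bool :=
  decide (j = i) || decide (j = i + 1) || (Pt.crz (edz w i) ((w j).sub (w i))).pos

/-! ## Targets -/

def T_C1 : Prop := ∀ x y : Z5, (x.add y).val = x.val + y.val ∧ (x.sub y).val = x.val - y.val ∧
  (x.mul y).val = x.val * y.val ∧ x.neg.val = -x.val ∧ (x.pos = true → 0 < x.val) ∧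
  (x.isz = true → x.val = 0) ∧ (x.isneg = true → x.val < 0) ∧ (x.nonneg = true → 0 ≤ x.val) ∧
  (x.nonpos = true → x.val ≤ 0) ∧ Z5.val ⟨1, 0⟩ = 1

def T_C2 : Prop := ∀ (D : Z5) (p q : Pt) (l : Z5), 0 < D.val →
  (p.add q).val D = p.val D + q.val D ∧ (p.sub q).val D = p.val D - q.val D ∧
  p.neg.val D = -p.val D ∧ (Pt.smul l p).val D = (l.val : ℂ) * p.val D ∧
  cr (p.val D) (q.val D) = √D.val * (Pt.crz p q).val ∧
  ip (p.val D) (q.val D) = (Pt.ipz D p q).val ∧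
  rf (p.val D) (q.val D) = (Pt.rfz D p q).val D ∧
  (‖p.val D‖ ^ 2 : ℝ) = (Pt.ipz D p p).val

/-- soundness of the checker -/
def T_C3 : Prop := ∀ (n : ℕ) [NeZero n] (w : Fin n → Pt) (D : Z5) (E : Fin n → Bool), 3 ≤ n →
  0 < D.val → ConvPos (fun i => (w i).val D) →
  ∀ (t : Tr n) (ξ : Pt) (l : Z5) (d1 d2 : Pt), 0 < l.val → chk w D E t ξ l d1 d2 = true →
    ∀ α β : ℝ, 0 < α → 0 < β →
      AbL (fun i => (w i).val D) {i | E i = true} (ξ.val D / (l.val : ℂ))
        ((α : ℂ) * d1.val D + (β : ℂ) * d2.val D)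

/-- decomposition of a closed cone -/
def T_C4 : Prop := ∀ g h d : ℂ, d ≠ 0 → cr g h < 0 → cr g d ≤ 0 → cr d h ≤ 0 →
  (∃ c : ℝ, 0 < c ∧ d = (c : ℂ) * g) ∨ (∃ c : ℝ, 0 < c ∧ d = (c : ℂ) * h) ∨
  (∃ α β : ℝ, 0 < α ∧ 0 < β ∧ d = (α : ℂ) * g + (β : ℂ) * h)

/-- soundness of the certificate of a vertex -/
def T_C5 : Prop := ∀ (n : ℕ) [NeZero n] (w : Fin n → Pt) (D : Z5) (E : Fin n → Bool), 3 ≤ n →
  0 < D.val → ConvPos (fun i => (w i).val D) → ∀ (i : Fin n) (L : List (Item n)),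
  chkV w D E i L = true → FreeV (fun i => (w i).val D) {i | E i = true} i

/-- the regular pentagon with circumradius 8 -/
def pent : Fin 5 → Pt :=
  ![⟨⟨8, 0⟩, ⟨0, 0⟩⟩, ⟨⟨-2, 2⟩, ⟨2, 0⟩⟩, ⟨⟨-2, -2⟩, ⟨-1, 1⟩⟩, ⟨⟨-2, -2⟩, ⟨1, -1⟩⟩,
    ⟨⟨-2, 2⟩, ⟨-2, 0⟩⟩]

def T_C6 : Prop := ∀ k : Fin 5,
  (pent k).val ⟨10, 2⟩ = 8 * Complex.exp (2 * Real.pi * Complex.I * (k : ℕ) / 5)

end Pool.Agent.H79.BN
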