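import Pool.Agent.H79.BN.ChkI

/-!
# Non-separation: fast checker for certificates of polygons with integral vertices

A line is given by the equation `a y - b x = h`; `(a, b)` is its direction. After the reflection
in the side from `p` with vector `e` the new direction is `e ^ 2 conj (a, b)`.
-/

namespace Pool.Agent.H79.BN

open Set Pool.Agent.H93.BL

/-- data of a side: start point, end point, `Re e ^ 2`, `Im e ^ 2`, `|e| ^ 2` -/
structure Sd where
  px : ℤ
  py : ℤ
  qx : ℤ
  qy : ℤ
  A : ℤ
  B : ℤ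
  N : ℤ

/-- the data `S` belong to the polygon `w` -/
def chkSd {n : ℕ} [NeZero n] (w : Fin n → PI) (S : ℕ → Sd) : Bool :=
  (List.range 10).all fun k =>
    decide ((S k).px = (w (Fin.ofNat n k)).x) && decide ((S k).py = (w (Fin.ofNat n k)).y) &&
    decide ((S k).qx = (w (Fin.ofNat n k + 1)).x) && decide ((S k).qy = (w (Fin.ofNat n k + 1)).y) &&
    decide ((S k).A = ((S k).qx - (S k).px) * ((S k).qx - (S k).px) -
      ((S k).qy - (S k).py) * ((S k).qy - (S k).py)) &&
    decide ((S k).B = 2 * (((S k).qx - (S k).px) * ((S k).qy - (S k).py))) &&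
    decide ((S k).N = ((S k).qx - (S k).px) * ((S k).qx - (S k).px) +
      ((S k).qy - (S k).py) * ((S k).qy - (S k).py)) && decide (0 < (S k).N)

section chk

variable {n : ℕ} [NeZero n] (S : ℕ → Sd) (E : Fin n → Bool)

/-- the lines `(a, b, h)` and `(a', b', h')` cross the sides given by the digits of the code `c`;
strict for the first line -/
noncomputable def pchk (k : ℕ) : ℕ → ℤ → ℤ → ℤ → ℤ → ℤ → ℤ → Bool :=
  Nat.rec (motive := fun _ => ℕ → ℤ → ℤ → ℤ → ℤ → ℤ → ℤ → Bool) (fun _ _ _ _ _ _ _ => false)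
    (fun k ih c a b h a' b' h' =>
      (fun (u : Sd) => Sd.casesOn u fun px py qx qy A B N =>
        (fun (F F' : ℤ) =>
          ineg F && (!(ipos F') && (ipos (Int.sub (Int.sub (Int.mul a qy) (Int.mul b qx)) h) &&
          (!(ineg (Int.sub (Int.sub (Int.mul a' qy) (Int.mul b' qx)) h')) &&
          ((Nat.beq k 0 && E (Fin.ofNat n (c % 10))) ||
            (fun (a1 b1 a2 b2 : ℤ) => ih (c / 10) a1 b1
              (Int.add (Int.sub (Int.mul a1 py) (Int.mul b1 px)) (Int.mul N F)) a2 b2
              (Int.add (Int.sub (Int.mul a2 py) (Int.mul b2 px)) (Int.mul N F')))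
              (Int.add (Int.mul A a) (Int.mul B b)) (Int.sub (Int.mul B a) (Int.mul A b))
              (Int.add (Int.mul A a') (Int.mul B b')) (Int.sub (Int.mul B a') (Int.mul A b')))))))
          (Int.sub (Int.sub (Int.mul a py) (Int.mul b px)) h)
          (Int.sub (Int.sub (Int.mul a' py) (Int.mul b' px)) h'))
        (S (c % 10))) k

/-- corner bounces at the vertex `(x, y)` between the side vectors `f` (incoming) and `e`
(outgoing), alternately in the side `e` (`cor`, if `o = true`) and in the side `f` (`cor'`), and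
then a path -/
noncomputable def cchk (x y ex ey fx fy : ℤ) (k c : ℕ) (m : ℕ) :
    Bool → ℤ → ℤ → ℤ → ℤ → Bool :=
  Nat.rec (motive := fun _ => Bool → ℤ → ℤ → ℤ → ℤ → Bool)
    (fun _ a b a' b' => pchk S E k c a b (icr a b x y) a' b' (icr a' b' x y))
    (fun _ ih o a b a' b' =>
      Bool.casesOn o
        (ipos (icr ex ey a b) && (!(ineg (icr ex ey a' b')) && (ineg (icr fx fy a b) &&
          (!(ipos (icr fx fy a' b')) && (fun (A B : ℤ) => ih true
            (Int.add (Int.mul A a) (Int.mul B b)) (Int.sub (Int.mul B a) (Int.mul A b))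
            (Int.add (Int.mul A a') (Int.mul B b')) (Int.sub (Int.mul B a') (Int.mul A b')))
            (Int.sub (Int.mul fx fx) (Int.mul fy fy)) (Int.mul 2 (Int.mul fx fy))))))
        (ipos (icr fx fy a b) && (!(ineg (icr fx fy a' b')) && (ineg (icr ex ey a b) &&
          (!(ipos (icr ex ey a' b')) && (fun (A B : ℤ) => ih false
            (Int.add (Int.mul A a) (Int.mul B b)) (Int.sub (Int.mul B a) (Int.mul A b))
            (Int.add (Int.mul A a') (Int.mul B b')) (Int.sub (Int.mul B a') (Int.mul A b')))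
            (Int.sub (Int.mul ex ex) (Int.mul ey ey)) (Int.mul 2 (Int.mul ex ey))))))) m

end chk

/-- the tree with `m` alternate corner bounces at the vertex `v` and then the tree `t` -/
def cornT {n : ℕ} (v : Fin n) (t : Tr n) : ℕ → Bool → Tr n
  | 0, _ => t
  | m + 1, true => .cor v (cornT v t m false)
  | m + 1, false => .cor' v (cornT v t m true)

/-- an item: direction `(x, y)`, exact tree `t` with option `o` (if `t` is `nil`, the cone is half
open), cone: option `o'`, `m` corner bounces, path of length `k` with code `c` -/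
structure ItemF (n : ℕ) where
  x : ℤ
  y : ℤ
  o : ℕ
  t : Tr n
  o' : ℕ
  m : ℕ
  k : ℕ
  c : ℕ

/-- the tree of the cone -/
def ItemF.tr {n : ℕ} [NeZero n] (v : Fin n) (a : ItemF n) : Tr n :=
  cornT v (pth a.k a.c .nil) a.m (match a.o' with | 2 => false | _ => true)

/-- the item of the slow checker -/
def ItemF.toI {n : ℕ} [NeZero n] (v : Fin n) (a : ItemF n) : ItemI n :=
  match a.t with
  | .nil => ⟨a.x, a.y, a.o', a.tr v, a.o', a.tr v⟩
  | _ => ⟨a.x, a.y, a.o, a.t, a.o', a.tr v⟩

/-- half open cone of an item -/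
noncomputable def chkH {n : ℕ} [NeZero n] (S : ℕ → Sd) (E : Fin n → Bool)
    (x y ex ey fx fy : ℤ) (a : ItemF n) (a' b' : ℤ) : Bool :=
  match a.o' with
  | 0 => cchk S E x y ex ey fx fy a.k a.c a.m true (Int.neg a.x) (Int.neg a.y) (Int.neg a')
      (Int.neg b')
  | 1 => ineg (icr fx fy a.x a.y) && (!(ipos (icr fx fy a' b')) && (fun (A B : ℤ) =>
      cchk S E x y ex ey fx fy a.k a.c a.m true
      (Int.add (Int.mul A a.x) (Int.mul B a.y)) (Int.sub (Int.mul B a.x) (Int.mul A a.y))
      (Int.add (Int.mul A a') (Int.mul B b')) (Int.sub (Int.mul B a') (Int.mul A b')))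
      (Int.sub (Int.mul fx fx) (Int.mul fy fy)) (Int.mul 2 (Int.mul fx fy)))
  | 2 => ineg (icr ex ey a.x a.y) && (!(ipos (icr ex ey a' b')) && (fun (A B : ℤ) =>
      cchk S E x y ex ey fx fy a.k a.c a.m false
      (Int.add (Int.mul A a.x) (Int.mul B a.y)) (Int.sub (Int.mul B a.x) (Int.mul A a.y))
      (Int.add (Int.mul A a') (Int.mul B b')) (Int.sub (Int.mul B a') (Int.mul A b')))
      (Int.sub (Int.mul ex ex) (Int.mul ey ey)) (Int.mul 2 (Int.mul ex ey)))
  | _ => false

/-- the covering of the fan -/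
noncomputable def chkCovF {n : ℕ} [NeZero n] (w : Fin n → PI) (S : ℕ → Sd) (E : Fin n → Bool)
    (i : Fin n) (x y ex ey fx fy gx gy : ℤ) : List (ItemF n) → Bool
  | [] => false
  | a :: L => (match L with
      | [] => chkOptI w E i a.o a.t a.x a.y a.x a.y && (iz (Int.sub a.x gx) && iz (Int.sub a.y gy))
      | b :: _ => ineg (icr a.x a.y b.x b.y) && (ineg (icr a.x a.y gx gy) &&
          ((match a.t with
            | .nil => chkH S E x y ex ey fx fy a b.x b.y
            | _ => chkOptI w E i a.o a.t a.x a.y a.x a.y &&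
                chkOptI w E i a.o' (a.tr (i + 1)) a.x a.y b.x b.y) &&
          chkCovF w S E i x y ex ey fx fy gx gy L)))

noncomputable def chkVF {n : ℕ} [NeZero n] (w : Fin n → PI) (S : ℕ → Sd) (E : Fin n → Bool)
    (i : Fin n) (L : List (ItemF n)) : Bool :=
  (match L with
    | [] => false
    | a :: _ => iz (Int.sub a.x (Int.sub (w (i + 1)).x (w i).x)) &&
        iz (Int.sub a.y (Int.sub (w (i + 1)).y (w i).y))) &&
  (fun (x y ex ey fx fy gx gy : ℤ) => chkCovF w S E i x y ex ey fx fy gx gy L)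
    (w (i + 1)).x (w (i + 1)).y
    (Int.sub (w (i + 1 + 1)).x (w (i + 1)).x) (Int.sub (w (i + 1 + 1)).y (w (i + 1)).y)
    (Int.sub (w (i + 1)).x (w i).x) (Int.sub (w (i + 1)).y (w i).y)
    (Int.sub (w (i + 1)).x (w (i + 1 + 1)).x) (Int.sub (w (i + 1)).y (w (i + 1 + 1)).y)

/-- strict version of the path checker -/
def T_FC1 : Prop := ∀ (n : ℕ) [NeZero n] (w : Fin n → PI) (S : ℕ → Sd) (E : Fin n → Bool),
  chkSd w S = true → ∀ (k c : ℕ) (X Y l a b h a' b' h' : ℤ), 0 < l → icr a b X Y = l * h →
  icr a' b' X Y = l * h' → pchk S E k c a b h a' b' h' = true →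
  chkI w E (pth k c .nil) X Y l a b a' b' = true ∧ chkI w E (pth k c .nil) X Y l a b a b = true

def T_FC2 : Prop := T_FC1 → ∀ (n : ℕ) [NeZero n] (w : Fin n → PI) (S : ℕ → Sd) (E : Fin n → Bool),
  chkSd w S = true → ∀ (i : Fin n) (L : List (ItemF n)), chkVF w S E i L = true →
  chkVI w E i (L.map (ItemF.toI (i + 1))) = true

end Pool.Agent.H79.BN
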