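import Pool.Agent.H79.BN.Chk

/-!
# Non-separation: certificates for polygons with integral vertices (fast version of the checker)
-/

namespace Pool.Agent.H79.BN

open Set Pool.Agent.H93.BL

/-- a point of the integral lattice -/
structure PI where
  x : ℤ
  y : ℤ

def PI.toPt (p : PI) : Pt := ⟨⟨p.x, 0⟩, ⟨p.y, 0⟩⟩

/-- test for `< 0` -/
def ineg : ℤ → Bool
  | .ofNat _ => false
  | .negSucc _ => true

/-- test for `> 0` -/
def ipos : ℤ → Bool
  | .ofNat 0 => false
  | .ofNat (_ + 1) => true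
  | .negSucc _ => false

/-- test for `= 0` -/
def iz : ℤ → Bool
  | .ofNat 0 => true
  | .ofNat (_ + 1) => false
  | .negSucc _ => false

/-- strict sign of all positive combinations of `a` and `b` -/
def ipos2 (a b : ℤ) : Bool := !(ineg a) && (!(ineg b) && (ipos a || ipos b))
def ineg2 (a b : ℤ) : Bool := !(ipos a) && (!(ipos b) && (ineg a || ineg b))

/-- cross product -/
def icr (a b c d : ℤ) : ℤ := Int.sub (Int.mul a d) (Int.mul b c)

/-- scalar product -/
def iip (a b c d : ℤ) : ℤ := Int.add (Int.mul a c) (Int.mul b d)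

/-- paths: the digits of `c` -/
def pth {n : ℕ} [NeZero n] : ℕ → ℕ → Tr n → Tr n
  | 0, _, t => t
  | k + 1, c, t => .crs (Fin.ofNat n (c % 10)) (pth k (c / 10) t)

section chk

variable {n : ℕ} [NeZero n] (w : Fin n → PI) (E : Fin n → Bool)

/-- continuation after a reflection in the side with the side vector `(ex, ey)`, starting at the
vertex `p` -/
def aftI (f : ℤ → ℤ → ℤ → ℤ → ℤ → ℤ → ℤ → Bool) (p : PI) (ex ey a b c d : ℤ) : Bool :=
  (fun (A B : ℤ) => f p.x p.y 1
    (Int.add (Int.mul A a) (Int.mul B b)) (Int.sub (Int.mul B a) (Int.mul A b))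
    (Int.add (Int.mul A c) (Int.mul B d)) (Int.sub (Int.mul B c) (Int.mul A d)))
    (Int.sub (Int.mul ex ex) (Int.mul ey ey)) (Int.mul 2 (Int.mul ex ey))

/-- The checker; `(X, Y)/l` is the start point, `(a, b)` and `(c, d)` are the directions. -/
def chkI : Tr n → ℤ → ℤ → ℤ → ℤ → ℤ → ℤ → ℤ → Bool
  | .nil, _, _, _, _, _, _, _ => false
  | .crs s t, X, Y, l, a, b, c, d =>
    (fun (p q : PI) =>
      (fun (wx wy vx vy ux uy : ℤ) =>
        ineg2 (icr a b ux uy) (icr c d ux uy) &&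
        (ipos2 (icr a b (Int.sub vx X) (Int.sub vy Y)) (icr c d (Int.sub vx X) (Int.sub vy Y)) &&
        (E s || (fun (ex ey : ℤ) => (fun (A B N : ℤ) =>
          chkI t (Int.sub (Int.mul N wx) (Int.add (Int.mul A ux) (Int.mul B uy)))
            (Int.sub (Int.mul N wy) (Int.sub (Int.mul B ux) (Int.mul A uy)))
            (Int.mul l N)
            (Int.add (Int.mul A a) (Int.mul B b)) (Int.sub (Int.mul B a) (Int.mul A b))
            (Int.add (Int.mul A c) (Int.mul B d)) (Int.sub (Int.mul B c) (Int.mul A d)))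
          (Int.sub (Int.mul ex ex) (Int.mul ey ey)) (Int.mul 2 (Int.mul ex ey))
          (Int.add (Int.mul ex ex) (Int.mul ey ey)))
          (Int.sub q.x p.x) (Int.sub q.y p.y))))
        (Int.mul l p.x) (Int.mul l p.y) (Int.mul l q.x) (Int.mul l q.y)
        (Int.sub (Int.mul l p.x) X) (Int.sub (Int.mul l p.y) Y))
      (w s) (w (s + 1))
  | .vtx s t1 t2, X, Y, l, a, b, c, d =>
    (fun (o p q : PI) =>
      (fun (ux uy ex ey fx fy : ℤ) =>
        iz (icr a b ux uy) && iz (icr c d ux uy) && ineg2 (icr ex ey a b) (icr ex ey c d) &&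
          ineg2 (icr fx fy a b) (icr fx fy c d) &&
          (E (s - 1) || aftI (chkI t1) p fx fy a b c d) && (E s || aftI (chkI t2) p ex ey a b c d))
      (Int.sub (Int.mul l p.x) X) (Int.sub (Int.mul l p.y) Y)
      (Int.sub q.x p.x) (Int.sub q.y p.y) (Int.sub p.x o.x) (Int.sub p.y o.y))
    (w (s - 1)) (w s) (w (s + 1))
  | .cor s t, X, Y, l, a, b, c, d =>
    (fun (o p q : PI) =>
      (fun (ex ey fx fy : ℤ) =>
        iz (Int.sub (Int.mul l p.x) X) && iz (Int.sub (Int.mul l p.y) Y) &&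
          ipos2 (icr fx fy a b) (icr fx fy c d) && ineg2 (icr ex ey a b) (icr ex ey c d) &&
          (E s || aftI (chkI t) p ex ey a b c d))
      (Int.sub q.x p.x) (Int.sub q.y p.y) (Int.sub p.x o.x) (Int.sub p.y o.y))
    (w (s - 1)) (w s) (w (s + 1))
  | .cor' s t, X, Y, l, a, b, c, d =>
    (fun (o p q : PI) =>
      (fun (ex ey fx fy : ℤ) =>
        iz (Int.sub (Int.mul l p.x) X) && iz (Int.sub (Int.mul l p.y) Y) &&
          ipos2 (icr ex ey a b) (icr ex ey c d) && ineg2 (icr fx fy a b) (icr fx fy c d) &&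
          (E (s - 1) || aftI (chkI t) p fx fy a b c d))
      (Int.sub q.x p.x) (Int.sub q.y p.y) (Int.sub p.x o.x) (Int.sub p.y o.y))
    (w (s - 1)) (w s) (w (s + 1))
  | .par s t, X, Y, l, a, b, c, d =>
    (fun (p q r : PI) =>
      (fun (ex ey fx fy : ℤ) =>
        iz (Int.sub (Int.mul l p.x) X) && iz (Int.sub (Int.mul l p.y) Y) &&
          iz (icr ex ey a b) && iz (icr ex ey c d) && ipos (iip ex ey a b) &&
          ipos (iip ex ey c d) && (E (s + 1) || aftI (chkI t) q fx fy a b c d))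
      (Int.sub q.x p.x) (Int.sub q.y p.y) (Int.sub r.x q.x) (Int.sub r.y q.y))
    (w s) (w (s + 1)) (w (s + 1 + 1))
  | .par' s t, X, Y, l, a, b, c, d =>
    (fun (p q r : PI) =>
      (fun (ex ey fx fy : ℤ) =>
        iz (Int.sub (Int.mul l p.x) X) && iz (Int.sub (Int.mul l p.y) Y) &&
          iz (icr ex ey a b) && iz (icr ex ey c d) && ineg (iip ex ey a b) &&
          ineg (iip ex ey c d) && (E (s - 2) || aftI (chkI t) q fx fy a b c d))
      (Int.sub p.x q.x) (Int.sub p.y q.y) (Int.sub (w (s - 2 + 1)).x r.x)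
      (Int.sub (w (s - 2 + 1)).y r.y))
    (w (s - 1 + 1)) (w (s - 1)) (w (s - 2))

/-- the three options at the vertex `w (i + 1)` -/
def chkOptI (i : Fin n) (o : ℕ) (t : Tr n) (a b c d : ℤ) : Bool :=
  match o with
  | 0 => chkI w E t (w (i + 1)).x (w (i + 1)).y 1 (Int.neg a) (Int.neg b) (Int.neg c) (Int.neg d)
  | 1 => (fun (ex ey : ℤ) => ineg2 (icr ex ey a b) (icr ex ey c d) &&
      aftI (chkI w E t) (w (i + 1)) ex ey a b c d)
      (Int.sub (w (i + 1)).x (w i).x) (Int.sub (w (i + 1)).y (w i).y)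
  | _ => (fun (ex ey : ℤ) => ineg2 (icr ex ey a b) (icr ex ey c d) &&
      aftI (chkI w E t) (w (i + 1)) ex ey a b c d)
      (Int.sub (w (i + 1 + 1)).x (w (i + 1)).x) (Int.sub (w (i + 1 + 1)).y (w (i + 1)).y)

end chk

/-- an item with integral direction -/
structure ItemI (n : ℕ) where
  x : ℤ
  y : ℤ
  o : ℕ
  t : Tr n
  o' : ℕ
  t' : Tr n

def ItemI.toItem {n : ℕ} (a : ItemI n) : Item n := ⟨⟨⟨a.x, 0⟩, ⟨a.y, 0⟩⟩, a.o, a.t, a.o', a.t'⟩

def chkCovI {n : ℕ} [NeZero n] (w : Fin n → PI) (E : Fin n → Bool) (i : Fin n) (gx gy : ℤ) :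
    List (ItemI n) → Bool
  | [] => false
  | a :: L => chkOptI w E i a.o a.t a.x a.y a.x a.y && (match L with
      | [] => iz (Int.sub a.x gx) && iz (Int.sub a.y gy)
      | b :: _ => ineg (icr a.x a.y b.x b.y) && ineg (icr a.x a.y gx gy) &&
          chkOptI w E i a.o' a.t' a.x a.y b.x b.y && chkCovI w E i gx gy L)

def chkVI {n : ℕ} [NeZero n] (w : Fin n → PI) (E : Fin n → Bool) (i : Fin n)
    (L : List (ItemI n)) : Bool :=
  (match L with
    | [] => false
    | a :: _ => iz (Int.sub a.x (Int.sub (w (i + 1)).x (w i).x)) &&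
        iz (Int.sub a.y (Int.sub (w (i + 1)).y (w i).y))) &&
  chkCovI w E i (Int.sub (w (i + 1)).x (w (i + 1 + 1)).x) (Int.sub (w (i + 1)).y (w (i + 1 + 1)).y) L

def chkConvI {n : ℕ} [NeZero n] (w : Fin n → PI) : Bool :=
  (List.finRange n).all fun i => (List.finRange n).all fun j =>
    decide (j = i) || decide (j = i + 1) ||
      ipos (icr (Int.sub (w (i + 1)).x (w i).x) (Int.sub (w (i + 1)).y (w i).y)
        (Int.sub (w j).x (w i).x) (Int.sub (w j).y (w i).y))

end Pool.Agent.H79.BN
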