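import Pool.Agent.H79.BN.Targets2

/-!
# Non-separation: targets of part S (maximum principle, half plane criterion, parallelograms)
-/

namespace Pool.Agent.H79.BN

open MeasureTheory Set Filter Topology Pool.Agent.H93.BL

/-- the reflected direction -/
noncomputable def rfn (e v : ℂ) : ℂ := rf e v / ((‖e‖ ^ 2 : ℝ) : ℂ)

/-- products of reflected directions -/
def T_S0 : Prop := ∀ e v u : ℂ, e ≠ 0 → ‖rfn e v‖ = ‖v‖ ∧
  ip (rfn e v) u = ip v u - 2 * (cr e v * cr e u) / ‖e‖ ^ 2 ∧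
  (∀ c : ℝ, cr (rfn e v) ((c : ℂ) * e) = -cr v ((c : ℂ) * e) ∧
    ip (rfn e v) ((c : ℂ) * e) = ip v ((c : ℂ) * e)) ∧
  (cr e v = 0 → rfn e v = v) ∧ rf e v = ((‖e‖ ^ 2 : ℝ) : ℂ) * rfn e v

/-- Maximum principle: a closed set of states which contains all successors of its states (a
flight of length `t ≥ 0` to the side `s ∉ E` and a reflection), with a height `G` which increases
along flights of positive length, consists of absorbed states. -/
def T_MP : Prop := ∀ (n : ℕ) [NeZero n] (w : Fin n → ℂ) (E : Set (Fin n)), 3 ≤ n → ConvPos w →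
  ∀ (K : Set (ℂ × ℂ)) (G : ℂ × ℂ → ℝ), IsClosed K → Continuous G → (∀ p ∈ K, ‖p.2‖ = 1) →
  (∀ (y d : ℂ) (s : Fin n) (t : ℝ), (y, d) ∈ K → s ∉ E → 0 ≤ t →
    y + (t : ℂ) * d ∈ segment ℝ (w s) (w (s + 1)) → cr (ed w s) d ≤ 0 →
    (y + (t : ℂ) * d, rfn (ed w s) d) ∈ K ∧ G (y, d) ≤ G (y + (t : ℂ) * d, rfn (ed w s) d) ∧
      (0 < t → G (y, d) < G (y + (t : ℂ) * d, rfn (ed w s) d))) →
  ∀ y d, (y, d) ∈ K → Ab w E y d

/-- half plane condition: directions with a positive component along `u` are absorbed -/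
def T_S1 : Prop := ∀ (n : ℕ) [NeZero n] (w : Fin n → ℂ) (E : Set (Fin n)) (u : ℂ), 3 ≤ n →
  ConvPos w → (∀ k, k ∉ E → 0 ≤ cr (ed w k) u) → ∀ y d, 0 < ip d u → Ab w E y d

/-- half plane condition and vertex criterion -/
def T_S2 : Prop := ∀ (n : ℕ) [NeZero n] (w : Fin n → ℂ) (E : Set (Fin n)) (u : ℂ), 3 ≤ n →
  ConvPos w → u ≠ 0 → (∀ k, k ∉ E → 0 ≤ cr (ed w k) u) → ∀ i, i ∉ E → i + 1 ∉ E →
  ¬ (cr (ed w i) u = 0 ∧ ip (ed w (i + 1)) u = 0) →
  ¬ (ip (ed w i) u = 0 ∧ cr (ed w (i + 1)) u = 0) → FreeV w E i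

/-- quadrilaterals close to a parallelogram which is not a rectangle -/
def T_S4 : Prop := ∀ w : Fin 4 → ℂ, ConvPos w → w 0 + w 2 = w 1 + w 3 →
  ip (w 1 - w 0) (w 2 - w 1) ≠ 0 →
  ∃ δ > (0 : ℝ), ∀ P : Polygon (Fin 4), Close w δ P → ∀ i, P.Determines {i}

end Pool.Agent.H79.BN
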